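import Pool.Agent.Helper92.MT.TorusCases

/-!
The Lie algebra is its own normaliser; unipotent operators normalising it.
-/

open Module

namespace MTP

variable {K : Type*} [Field K] {V : Type*} [AddCommGroup V] [Module K V] [FiniteDimensional K V]
variable {ω : LinearMap.BilinForm K V} {L : Submodule K (Module.End K V)}
  {S : Set (Module.End K V)}

/-- An operator commuting with an irreducible family is a scalar. -/
lemma IrrSymp.schur [IsAlgClosed K] (hL : IrrSymp ω L) [Nontrivial V] {n : Module.End K V}
    (hn : ∀ y ∈ L, n * y = y * n) : ∃ c : K, n = c • 1 := by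
  obtain ⟨c, hc⟩ := Module.End.exists_eigenvalue n
  obtain ⟨v, hv⟩ := hc.exists_hasEigenvector
  refine ⟨c, ?_⟩
  rcases hL.irr (n.eigenspace c) (by
    intro z hz w hw
    rw [Module.End.mem_eigenspace_iff] at *
    rw [← Module.End.mul_apply, hn z hz, Module.End.mul_apply, hw, map_smul]) with h | h
  · exfalso
    have h3 : v ∈ n.eigenspace c := hv.1
    rw [h] at h3
    exact hv.2 ((Submodule.mem_bot K).mp h3)
  · ext w
    have : w ∈ n.eigenspace c := by rw [h]; trivial
    rw [Module.End.mem_eigenspace_iff] at this
    simpa using this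

/-- `L` is its own normaliser in the symplectic Lie algebra. -/
lemma IrrSymp.normal_mem [IsAlgClosed K] [CharZero K] [Nontrivial V] (hL : IrrSymp ω L)
    (hω : ω.Nondegenerate) {z : Module.End K V} (hz : IsSk ω z)
    (hn : ∀ y ∈ L, z * y - y * z ∈ L) : z ∈ L := by
  let Φ : L →ₗ[K] Module.Dual K L :=
    { toFun := fun a =>
        { toFun := fun b => LinearMap.trace K V ((a : Module.End K V) * (b : Module.End K V))
          map_add' := by intro b c; simp [mul_add]
          map_smul' := by intro c b; simp }
      map_add' := by intro a b; ext c; simp [add_mul]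
      map_smul' := by intro c a; ext b; simp }
  have hinj : Function.Injective Φ := by
    rw [injective_iff_map_eq_zero]
    intro a ha
    apply Subtype.ext
    apply hL.nondeg hω a.2
    intro y hy
    have := congrArg (fun φ => φ ⟨y, hy⟩) ha
    exact this
  have hfin : finrank K L = finrank K (Module.Dual K L) := Subspace.dual_finrank_eq.symm
  have hsurj : Function.Surjective Φ :=
    (LinearMap.injective_iff_surjective_of_finrank_eq_finrank hfin).mp hinj
  let ψ : Module.Dual K L :=
    { toFun := fun b => LinearMap.trace K V (z * (b : Module.End K V))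
      map_add' := by intro b c; simp [mul_add]
      map_smul' := by intro c b; simp }
  obtain ⟨l, hl⟩ := hsurj ψ
  have key : ∀ b ∈ L, LinearMap.trace K V ((z - l) * b) = 0 := by
    intro b hb
    have := congrArg (fun φ => φ ⟨b, hb⟩) hl
    change LinearMap.trace K V ((l : Module.End K V) * b) = LinearMap.trace K V (z * b) at this
    rw [sub_mul, map_sub, this, sub_self]
  have hcomm : ∀ y ∈ L, (z - l) * y = y * (z - l) := by
    intro y hy
    rw [← sub_eq_zero]
    have hmem : (z - l) * y - y * (z - l) ∈ L := by
      have : (z - l) * y - y * (z - l) = (z * y - y * z) - ((l : Module.End K V) * y - y * l) := by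
        noncomm_ring
      rw [this]
      exact L.sub_mem (hn y hy) (hL.br _ l.2 y hy)
    apply hL.nondeg hω hmem
    intro w hw
    have h1 := key _ (hL.br y hy w hw)
    have e1 : LinearMap.trace K V (y * (z - l) * w) =
        LinearMap.trace K V ((z - l) * (w * y)) := by
      rw [mul_assoc, LinearMap.trace_mul_comm, mul_assoc]
    rw [sub_mul, map_sub, e1, ← map_sub]
    rw [mul_sub, ← mul_assoc] at h1
    exact h1
  obtain ⟨c, hc⟩ := hL.schur hcomm
  have hsk : IsSk ω (z - l) := by
    intro v w
    rw [LinearMap.sub_apply, map_sub, LinearMap.sub_apply, hz, hL.sk _ l.2, LinearMap.sub_apply,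
      map_sub]
    ring
  obtain ⟨v, hv⟩ := exists_ne (0 : V)
  obtain ⟨w, hw⟩ : ∃ w, ω v w ≠ 0 := by
    by_contra hcon
    push Not at hcon
    exact hv (hω.1 v hcon)
  have h1 := hsk v w
  rw [hc] at h1
  simp only [LinearMap.smul_apply, Module.End.one_apply, map_smul, smul_eq_mul] at h1
  have h2 : (2 * ω v w) * c = 0 := by linear_combination h1
  have hc0 : c = 0 := by
    rcases mul_eq_zero.mp h2 with h | h
    · exact absurd h (mul_ne_zero two_ne_zero hw)
    · exact h
  rw [hc0, zero_smul, sub_eq_zero] at hc
  rw [hc]
  exact l.2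

/-- The logarithm of a unipotent operator preserving the form. -/
lemma isSk_of_unip {D : Module.End K V} (hDD : D * D = 0)
    (h : ∀ v w, ω ((1 + D) v) ((1 + D) w) = ω v w) : IsSk ω D := by
  have hD : ∀ v, D (D v) = 0 := by
    intro v; rw [← Module.End.mul_apply, hDD]; rfl
  have h1 : ∀ v w, ω (D v) w + ω v (D w) + ω (D v) (D w) = 0 := by
    intro v w
    have := h v w
    simp only [LinearMap.add_apply, Module.End.one_apply, map_add] at this
    linear_combination this
  intro v w
  have h2 := h1 v (D w)
  rw [hD, map_zero, map_zero, add_zero, add_zero] at h2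
  have h3 := h1 v w
  rw [h2] at h3
  linear_combination h3

/-- A unipotent operator with square zero logarithm normalising `L` has its logarithm in `L`. -/
lemma IrrSymp.log_mem [IsAlgClosed K] [CharZero K] [Nontrivial V] (hL : IrrSymp ω L)
    (hω : ω.Nondegenerate) {D : Module.End K V} (hDD : D * D = 0)
    (h : ∀ v w, ω ((1 + D) v) ((1 + D) w) = ω v w)
    (h1 : ∀ z ∈ L, (1 + D) * z * (1 - D) ∈ L) (h2 : ∀ z ∈ L, (1 - D) * z * (1 + D) ∈ L) :
    D ∈ L := by
  apply hL.normal_mem hω (isSk_of_unip hDD h)
  intro z hz
  have h3 := L.sub_mem (h1 z hz) (h2 z hz)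
  have e : (1 + D) * z * (1 - D) - (1 - D) * z * (1 + D) = (2 : K) • (D * z - z * D) := by
    rw [two_smul]; noncomm_ring
  rw [e] at h3
  have := L.smul_mem (2 : K)⁻¹ h3
  rwa [smul_smul, inv_mul_cancel₀ two_ne_zero, one_smul] at this

end MTP
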