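import Pool.Agent.Helper21.MT.Sp

/-!
A nondegenerate plane in a symplectic space, its projection, odd and even operators.
-/

open Module

namespace MTP

variable {K : Type*} [Field K] {V : Type*} [AddCommGroup V] [Module K V]
variable {ω : LinearMap.BilinForm K V}

/-- The projection onto the first line of the plane spanned by `p1`, `p2`. -/
noncomputable def pr1 (ω : LinearMap.BilinForm K V) (p1 p2 : V) : Module.End K V :=
  (ω.flip p2).smulRight p1

/-- The projection onto the second line of the plane spanned by `p1`, `p2`. -/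
noncomputable def pr2 (ω : LinearMap.BilinForm K V) (p1 p2 : V) : Module.End K V :=
  (ω p1).smulRight p2

/-- The projection onto the plane spanned by `p1`, `p2`. -/
noncomputable def pr (ω : LinearMap.BilinForm K V) (p1 p2 : V) : Module.End K V :=
  pr1 ω p1 p2 + pr2 ω p1 p2

lemma pr1_apply (p1 p2 v : V) : pr1 ω p1 p2 v = ω v p2 • p1 := rfl

lemma pr2_apply (p1 p2 v : V) : pr2 ω p1 p2 v = ω p1 v • p2 := rfl

lemma pr_apply (p1 p2 v : V) : pr ω p1 p2 v = ω v p2 • p1 + ω p1 v • p2 := rfl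

section
variable {p1 p2 : V} (halt : ω.IsAlt) (h12 : ω p1 p2 = 1)
include halt h12

lemma pr_p1 : pr ω p1 p2 p1 = p1 := by
  rw [pr_apply, h12, halt.self_eq_zero, one_smul, zero_smul, add_zero]

lemma pr_p2 : pr ω p1 p2 p2 = p2 := by
  rw [pr_apply, h12, halt.self_eq_zero, one_smul, zero_smul, zero_add]

lemma pr_mul_pr : pr ω p1 p2 * pr ω p1 p2 = pr ω p1 p2 := by
  ext v
  rw [Module.End.mul_apply]
  conv_lhs => rw [pr_apply p1 p2 v, map_add, map_smul, map_smul, pr_p1 halt h12, pr_p2 halt h12]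
  rw [pr_apply]

omit h12 in
lemma adj_pr (v w : V) : ω (pr ω p1 p2 v) w = ω v (pr ω p1 p2 w) := by
  rw [pr_apply, pr_apply]
  simp only [map_add, map_smul, LinearMap.add_apply, LinearMap.smul_apply, smul_eq_mul]
  have e1 : ω p1 v = - ω v p1 := (halt.neg_eq v p1).symm
  have e2 : ω p2 w = - ω w p2 := (halt.neg_eq w p2).symm
  rw [e1, e2]
  ring

/-- The projection depends only on the plane. -/
lemma pr_change {q1 q2 : V} (h1 : pr ω p1 p2 q1 = q1) (h2 : pr ω p1 p2 q2 = q2)
    (hq : ω q1 q2 = 1) : pr ω q1 q2 = pr ω p1 p2 := by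
  rw [pr_apply] at h1 h2
  generalize ω q1 p2 = a at h1
  generalize ω p1 q1 = b at h1
  generalize ω q2 p2 = c at h2
  generalize ω p1 q2 = d at h2
  have h21 : ω p2 p1 = -1 := by rw [← halt.neg_eq, h12]
  have hdet : a * d - b * c = 1 := by
    rw [← h1, ← h2] at hq
    simp only [map_add, map_smul, LinearMap.add_apply, LinearMap.smul_apply, smul_eq_mul, h12, h21,
      halt.self_eq_zero] at hq
    linear_combination hq
  ext v
  rw [pr_apply, pr_apply, ← h1, ← h2]
  simp only [map_add, map_smul, LinearMap.add_apply, LinearMap.smul_apply, smul_eq_mul, smul_add,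
    smul_smul]
  have e1 : ω v p1 = - ω p1 v := (halt.neg_eq p1 v).symm
  have e2 : ω p2 v = - ω v p2 := (halt.neg_eq v p2).symm
  rw [e1, e2]
  have hd : a * d = 1 + b * c := by linear_combination hdet
  match_scalars
  · linear_combination (ω v p2) * hd
  · linear_combination (ω p1 v) * hd

/-- Every nonzero vector of the plane is the first vector of a hyperbolic basis. -/
lemma exists_basis {q1 : V} (h1 : pr ω p1 p2 q1 = q1) (hq : q1 ≠ 0) :
    ∃ q2, ω q1 q2 = 1 ∧ pr ω q1 q2 = pr ω p1 p2 := by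
  have h21 : ω p2 p1 = -1 := by rw [← halt.neg_eq, h12]
  have h1' := h1
  rw [pr_apply] at h1'
  by_cases ha : ω q1 p2 = 0
  · have hb : ω p1 q1 ≠ 0 := by
      intro hb
      rw [ha, hb, zero_smul, zero_smul, add_zero] at h1'
      exact hq h1'.symm
    have hq2 : ω q1 (-(ω p1 q1)⁻¹ • p1) = 1 := by
      rw [map_smul, smul_eq_mul, ← halt.neg_eq p1 q1]
      field_simp
    refine ⟨-(ω p1 q1)⁻¹ • p1, hq2, pr_change halt h12 h1 ?_ hq2⟩
    rw [map_smul, pr_p1 halt h12]
  · have hq2 : ω q1 ((ω q1 p2)⁻¹ • p2) = 1 := by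
      rw [map_smul, smul_eq_mul]
      field_simp
    refine ⟨(ω q1 p2)⁻¹ • p2, hq2, pr_change halt h12 h1 ?_ hq2⟩
    rw [map_smul, pr_p2 halt h12]

omit h12 in
lemma adj_sum {X X' : Module.End K V} (h12 : ω p1 p2 = 1)
    (hX : ∀ v, pr ω p1 p2 v = v → pr ω p1 p2 (X v) = X v)
    (hX' : ∀ v, pr ω p1 p2 v = v → pr ω p1 p2 (X' v) = X' v)
    (h : ∀ v w, pr ω p1 p2 v = v → pr ω p1 p2 w = w → ω (X v) w = ω v (X' w))
    {v : V} (hv : pr ω p1 p2 v = v) :
    X v + X' v = (ω (X p1) p2 + ω p1 (X p2)) • v := by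
  have k1 := pr_p1 halt h12
  have k2 := pr_p2 halt h12
  have key : ∀ w, pr ω p1 p2 w = w → w = ω w p2 • p1 + ω p1 w • p2 := by
    intro w hw
    conv_lhs => rw [← hw, pr_apply]
  have e1 : X p1 + X' p1 = (ω (X p1) p2 + ω p1 (X p2)) • p1 := by
    rw [key _ (hX p1 k1), key _ (hX' p1 k1)]
    have a1 : ω (X' p1) p2 = ω p1 (X p2) := by
      rw [← halt.neg_eq, ← h p2 p1 k2 k1, halt.neg_eq]
    have a2 : ω p1 (X' p1) = - ω p1 (X p1) := by
      rw [← h p1 p1 k1 k1, ← halt.neg_eq]
    simp only [map_add, map_smul, LinearMap.add_apply, LinearMap.smul_apply, smul_eq_mul, h12,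
      halt.self_eq_zero]
    rw [a1, a2]
    module
  have e2 : X p2 + X' p2 = (ω (X p1) p2 + ω p1 (X p2)) • p2 := by
    rw [key _ (hX p2 k2), key _ (hX' p2 k2)]
    have a1 : ω (X' p2) p2 = - ω (X p2) p2 := by
      rw [← halt.neg_eq, ← h p2 p2 k2 k2]
    have a2 : ω p1 (X' p2) = ω (X p1) p2 := by
      rw [← h p1 p2 k1 k2]
    simp only [map_add, map_smul, LinearMap.add_apply, LinearMap.smul_apply, smul_eq_mul, h12,
      halt.self_eq_zero]
    rw [a1, a2]
    module
  rw [key v hv]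
  simp only [map_add, map_smul]
  have : ω v p2 • X p1 + ω p1 v • X p2 + (ω v p2 • X' p1 + ω p1 v • X' p2) =
      ω v p2 • (X p1 + X' p1) + ω p1 v • (X p2 + X' p2) := by module
  rw [this, e1, e2]
  module

end

/-- Operators exchanging the plane and its orthogonal. -/
def Odd2 (ω : LinearMap.BilinForm K V) (p1 p2 : V) (y : Module.End K V) : Prop :=
  y = pr ω p1 p2 * y + y * pr ω p1 p2

section odd
variable {p1 p2 : V} {y z : Module.End K V}

lemma Odd2.apply (hy : Odd2 ω p1 p2 y) (v : V) :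
    y v = pr ω p1 p2 (y v) + y (pr ω p1 p2 v) := by
  conv_lhs => rw [hy]
  rfl

lemma Odd2.pr_apply_eq_zero (hy : Odd2 ω p1 p2 y) {v : V} (hv : pr ω p1 p2 v = v) :
    pr ω p1 p2 (y v) = 0 := by
  have := hy.apply v
  rw [hv] at this
  exact (right_eq_add.mp this)

lemma Odd2.pr_apply_of_zero (hy : Odd2 ω p1 p2 y) {v : V} (hv : pr ω p1 p2 v = 0) :
    pr ω p1 p2 (y v) = y v := by
  have := hy.apply v
  rw [hv, map_zero, add_zero] at this
  exact this.symm

lemma Odd2.mul (hy : Odd2 ω p1 p2 y) (hz : Odd2 ω p1 p2 z) {v : V} (hv : pr ω p1 p2 v = v) :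
    pr ω p1 p2 ((z * y) v) = (z * y) v :=
  hz.pr_apply_of_zero (hy.pr_apply_eq_zero hv)

variable (halt : ω.IsAlt) (h12 : ω p1 p2 = 1)
include halt h12

omit h12 in
/-- An odd infinitesimal symplectic operator killing `p1` is a rank two square zero operator. -/
lemma Odd2.eq_BB (hy : Odd2 ω p1 p2 y) (hsk : IsSk ω y) (h1 : y p1 = 0) :
    y = BB ω (y p2) p1 := by
  ext v
  rw [BB_apply, hy.apply v, pr_apply, pr_apply, hsk]
  have e1 : ω p1 (y v) = 0 := by
    have := hsk p1 v
    rw [h1] at this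
    simp only [map_zero, LinearMap.zero_apply] at this
    exact (neg_eq_zero.mp this.symm)
  rw [e1, map_add, map_smul, map_smul, h1]
  have e2 : ω (y p2) v = - ω v (y p2) := (halt.neg_eq v (y p2)).symm
  rw [e2]
  module

omit halt h12 in
lemma BB_sq (halt : ω.IsAlt) {u v : V} (h : ω u v = 0) : BB ω u v * BB ω u v = 0 := by
  have h' : ω v u = 0 := by rw [← halt.neg_eq, h, neg_zero]
  ext z
  rw [Module.End.mul_apply, BB_apply, BB_apply]
  simp only [map_add, map_smul, h, h', halt.self_eq_zero]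
  simp

omit halt h12 in
lemma rk_BB_le [FiniteDimensional K V] (u v : V) : rk (BB ω u v) ≤ 2 := by
  classical
  have h : LinearMap.range (BB ω u v) ≤ Submodule.span K (({u, v} : Finset V) : Set V) := by
    rintro _ ⟨z, rfl⟩
    rw [BB_apply]
    apply Submodule.add_mem
    · exact Submodule.smul_mem _ _ (Submodule.subset_span (by simp))
    · exact Submodule.smul_mem _ _ (Submodule.subset_span (by simp))
  calc rk (BB ω u v) ≤ finrank K (Submodule.span K (({u, v} : Finset V) : Set V)) :=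
        Submodule.finrank_mono h
    _ ≤ ({u, v} : Finset V).card := finrank_span_finset_le_card _
    _ ≤ 2 := Finset.card_le_two

end odd

/-- There is no nonzero square zero element of rank at most two. -/
def NoSmall (L : Submodule K (Module.End K V)) : Prop :=
  ∀ z ∈ L, z * z = 0 → rk z ≤ 2 → z = 0

/-- An odd element of `L` killing a nonzero vector of the plane is zero. -/
lemma NoSmall.eq_zero [FiniteDimensional K V] {L : Submodule K (Module.End K V)} (hN : NoSmall L)
    (halt : ω.IsAlt) {p1 p2 : V} (h12 : ω p1 p2 = 1) {y : Module.End K V} (hy : y ∈ L)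
    (hsk : IsSk ω y) (hodd : Odd2 ω p1 p2 y) {p0 : V} (hp : pr ω p1 p2 p0 = p0) (hp0 : p0 ≠ 0)
    (h0 : y p0 = 0) : y = 0 := by
  obtain ⟨q2, hq, hpr⟩ := exists_basis halt h12 hp hp0
  have hodd' : Odd2 ω p0 q2 y := by unfold Odd2; rw [hpr]; exact hodd
  have e := hodd'.eq_BB halt hsk h0
  have e0 : ω (y q2) p0 = 0 := by
    rw [hsk, h0, map_zero, neg_zero]
  apply hN y hy
  · rw [e]; exact BB_sq halt e0
  · rw [e]; exact rk_BB_le _ _

end MTP
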