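import Pool.Agent.Helper92.MT.Plane

/-!
Lie algebras normalised by the symplectic involution which is `-1` on a plane.
-/

open Module

namespace MTP

variable {K : Type*} [Field K] {V : Type*} [AddCommGroup V] [Module K V] [FiniteDimensional K V]
variable {ω : LinearMap.BilinForm K V} {L : Submodule K (Module.End K V)}
  {S : Set (Module.End K V)} {p1 p2 : V}

section oddalg
variable {y z w : Module.End K V}

omit [FiniteDimensional K V] in
lemma odd2_iff : Odd2 ω p1 p2 y ↔ pr ω p1 p2 * y = y - y * pr ω p1 p2 := by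
  unfold Odd2
  constructor
  · intro h; nth_rewrite 2 [h]; abel
  · intro h; rw [h]; abel

omit [FiniteDimensional K V] in
lemma Odd2.mul3 (hy : Odd2 ω p1 p2 y) (hz : Odd2 ω p1 p2 z) (hw : Odd2 ω p1 p2 w) :
    Odd2 ω p1 p2 (y * z * w) := by
  rw [odd2_iff] at *
  calc pr ω p1 p2 * (y * z * w) = (pr ω p1 p2 * y) * z * w := by noncomm_ring
    _ = (y - y * pr ω p1 p2) * z * w := by rw [hy]
    _ = y * z * w - y * (pr ω p1 p2 * z) * w := by noncomm_ring
    _ = y * z * w - y * (z - z * pr ω p1 p2) * w := by rw [hz]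
    _ = y * z * (pr ω p1 p2 * w) := by noncomm_ring
    _ = y * z * (w - w * pr ω p1 p2) := by rw [hw]
    _ = _ := by noncomm_ring

/-- The odd elements of `L`. -/
def oddPart (ω : LinearMap.BilinForm K V) (p1 p2 : V) (L : Submodule K (Module.End K V)) :
    Submodule K (Module.End K V) where
  carrier := {y | y ∈ L ∧ Odd2 ω p1 p2 y}
  add_mem' := by
    rintro a b ⟨ha, ha'⟩ ⟨hb, hb'⟩
    refine ⟨L.add_mem ha hb, ?_⟩
    unfold Odd2 at *
    rw [mul_add, add_mul]
    nth_rewrite 1 [ha', hb']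
    abel
  zero_mem' := ⟨L.zero_mem, by unfold Odd2; simp⟩
  smul_mem' := by
    rintro c a ⟨ha, ha'⟩
    refine ⟨L.smul_mem c ha, ?_⟩
    unfold Odd2 at *
    rw [mul_smul_comm, smul_mul_assoc]
    nth_rewrite 1 [ha']
    rw [smul_add]

end oddalg

/-- The situation of the theorem, towards a contradiction. -/
structure Inv2 (ω : LinearMap.BilinForm K V) (L : Submodule K (Module.End K V))
    (S : Set (Module.End K V)) (p1 p2 : V) : Prop where
  ctx : Ctx ω L S
  alt : ω.IsAlt
  h12 : ω p1 p2 = 1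
  small : NoSmall L
  stab : ∀ z ∈ L, pr ω p1 p2 * z + z * pr ω p1 p2 - 2 • (pr ω p1 p2 * z * pr ω p1 p2) ∈ L

namespace Inv2
variable (H : Inv2 ω L S p1 p2)
include H

lemma sk {y : Module.End K V} (hy : y ∈ oddPart ω p1 p2 L) : IsSk ω y := H.ctx.irr.sk y hy.1

lemma oddp {z : Module.End K V} (hz : z ∈ L) :
    pr ω p1 p2 * z + z * pr ω p1 p2 - 2 • (pr ω p1 p2 * z * pr ω p1 p2) ∈ oddPart ω p1 p2 L := by
  refine ⟨H.stab z hz, ?_⟩
  rw [odd2_iff]
  have hh := pr_mul_pr H.alt H.h12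
  set e := pr ω p1 p2
  have h1 : e * (e * z + z * e - 2 • (e * z * e)) = (e * e) * z + e * z * e
    - 2 • ((e * e) * z * e) := by noncomm_ring
  have h2 : (e * z + z * e - 2 • (e * z * e)) * e = e * z * e + z * (e * e)
    - 2 • (e * z * (e * e)) := by noncomm_ring
  rw [h1, h2, hh]
  noncomm_ring

lemma tri {y z : Module.End K V} (hy : y ∈ oddPart ω p1 p2 L) (hz : z ∈ oddPart ω p1 p2 L) :
    2 • (y * z * y) - z * y * y - y * y * z ∈ oddPart ω p1 p2 L := by
  have e : (y * z - z * y) * y - y * (y * z - z * y) = 2 • (y * z * y) - z * y * y - y * y * z := by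
    noncomm_ring
  have hm : 2 • (y * z * y) - z * y * y - y * y * z ∈ L := by
    rw [← e]; exact H.ctx.irr.br _ (H.ctx.irr.br y hy.1 z hz.1) y hy.1
  refine ⟨hm, ?_⟩
  have h1 := odd2_iff.mp (hy.2.mul3 hz.2 hy.2)
  have h2 := odd2_iff.mp (hz.2.mul3 hy.2 hy.2)
  have h3 := odd2_iff.mp (hy.2.mul3 hy.2 hz.2)
  rw [odd2_iff, mul_sub, mul_sub, mul_smul_comm, h1, h2, h3, sub_mul, sub_mul, smul_mul_assoc]
  rw [smul_sub]
  abel

lemma adjoint {y z : Module.End K V} (hy : y ∈ oddPart ω p1 p2 L)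
    (hz : z ∈ oddPart ω p1 p2 L) (v w : V) : ω ((z * y) v) w = ω v ((y * z) w) := by
  rw [Module.End.mul_apply, Module.End.mul_apply, H.sk hz, H.sk hy, neg_neg]

lemma sum {y z : Module.End K V} (hy : y ∈ oddPart ω p1 p2 L)
    (hz : z ∈ oddPart ω p1 p2 L) {v : V} (hv : pr ω p1 p2 v = v) :
    z (y v) + y (z v) = (ω (z (y p1)) p2 + ω p1 (z (y p2))) • v :=
  adj_sum (X := z * y) (X' := y * z) H.alt H.h12 (fun _ h => hy.2.mul hz.2 h)
    (fun _ h => hz.2.mul hy.2 h) (fun v w _ _ => H.adjoint hy hz v w) hv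

lemma self [CharZero K] {y : Module.End K V} (hy : y ∈ oddPart ω p1 p2 L) {v : V}
    (hv : pr ω p1 p2 v = v) : y (y v) = ((2 : K)⁻¹ * (ω (y (y p1)) p2 + ω p1 (y (y p2)))) • v := by
  have h := H.sum hy hy hv
  rw [mul_smul, ← h, ← two_smul K (y (y v)), smul_smul, inv_mul_cancel₀ two_ne_zero, one_smul]

lemma p1_ne : p1 ≠ 0 := by
  rintro rfl
  have := H.h12
  simp at this

/-- The products `z y` act as scalars on the plane. -/
lemma scalar [IsAlgClosed K] [CharZero K] {y z : Module.End K V} (hy : y ∈ oddPart ω p1 p2 L)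
    (hz : z ∈ oddPart ω p1 p2 L) : ∃ c : K, ∀ v, pr ω p1 p2 v = v → z (y v) = c • v := by
  by_cases hy0 : y = 0
  · exact ⟨0, fun v _ => by rw [hy0]; simp⟩
  -- an eigenvector of `z y` in the plane
  obtain ⟨c, v0, hv0, hne, hev⟩ : ∃ (c : K) (v0 : V), pr ω p1 p2 v0 = v0 ∧ v0 ≠ 0 ∧
      z (y v0) = c • v0 := by
    let P : Submodule K V := LinearMap.eqLocus (pr ω p1 p2) LinearMap.id
    have hP : ∀ v, v ∈ P ↔ pr ω p1 p2 v = v := fun v => Iff.rfl
    have hst : ∀ v ∈ P, (z * y) v ∈ P := fun v hv => hy.2.mul hz.2 hv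
    have hnt : Nontrivial P := ⟨⟨⟨p1, pr_p1 H.alt H.h12⟩, 0, by
      intro h; exact H.p1_ne (congrArg Subtype.val h)⟩⟩
    obtain ⟨c, hc⟩ := Module.End.exists_eigenvalue ((z * y).restrict hst)
    obtain ⟨v0, hv0⟩ := hc.exists_hasEigenvector
    refine ⟨c, v0.1, v0.2, ?_, ?_⟩
    · intro h; exact hv0.2 (Subtype.ext h)
    · have := congrArg Subtype.val hv0.apply_eq_smul
      exact this
  set t := ω (z (y p1)) p2 + ω p1 (z (y p2)) with ht
  set b := (2 : K)⁻¹ * (ω (y (y p1)) p2 + ω p1 (y (y p2))) with hb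
  set u := (2 • (y * z * y) - z * y * y - y * y * z) + t • y + b • z - (3 * c) • y with hu
  have hmem : u ∈ oddPart ω p1 p2 L := by
    apply Submodule.sub_mem _ _ (Submodule.smul_mem _ _ hy)
    apply Submodule.add_mem _ _ (Submodule.smul_mem _ _ hz)
    exact Submodule.add_mem _ (H.tri hy hz) (Submodule.smul_mem _ _ hy)
  have hval : ∀ v, pr ω p1 p2 v = v → u v = (3 : K) • y (z (y v) - c • v) := by
    intro v hv
    have e1 : y (y v) = b • v := H.self hy hv
    have e2 : y (z v) = t • v - z (y v) := by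
      rw [← H.sum hy hz hv]; abel
    rw [hu]
    simp only [LinearMap.add_apply, LinearMap.sub_apply, LinearMap.smul_apply,
      Module.End.mul_apply, e1, e2, map_sub, map_smul]
    module
  have hu0 : u = 0 := by
    apply H.small.eq_zero H.alt H.h12 hmem.1 (H.sk hmem) hmem.2 hv0 hne
    rw [hval v0 hv0, hev, sub_self, map_zero, smul_zero]
  refine ⟨c, fun v hv => ?_⟩
  by_contra hcon
  apply hy0
  have hd : pr ω p1 p2 (z (y v) - c • v) = z (y v) - c • v := by
    rw [map_sub, map_smul, hv]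
    have := hy.2.mul hz.2 hv
    rw [Module.End.mul_apply] at this
    rw [this]
  apply H.small.eq_zero H.alt H.h12 hy.1 (H.sk hy) hy.2 hd (sub_ne_zero.mpr hcon)
  have := hval v hv
  rw [hu0, LinearMap.zero_apply] at this
  have h3 : (3 : K) ≠ 0 := by norm_num
  exact (smul_eq_zero.mp this.symm).resolve_left h3

/-- The symmetric form. -/
lemma form [IsAlgClosed K] [CharZero K] {y z : Module.End K V} (hy : y ∈ oddPart ω p1 p2 L)
    (hz : z ∈ oddPart ω p1 p2 L) {v : V} (hv : pr ω p1 p2 v = v) :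
    z (y v) = (ω (z (y p1)) p2) • v := by
  obtain ⟨c, hc⟩ := H.scalar hy hz
  have := hc p1 (pr_p1 H.alt H.h12)
  rw [this, map_smul, LinearMap.smul_apply, H.h12, smul_eq_mul, mul_one]
  exact hc v hv

lemma form_symm [IsAlgClosed K] [CharZero K] {y z : Module.End K V}
    (hy : y ∈ oddPart ω p1 p2 L) (hz : z ∈ oddPart ω p1 p2 L) :
    ω (z (y p1)) p2 = ω (y (z p1)) p2 := by
  have h1 := H.adjoint hy hz p1 p2
  rw [Module.End.mul_apply, Module.End.mul_apply] at h1
  rw [h1, H.form hz hy (pr_p2 H.alt H.h12), map_smul, smul_eq_mul, H.h12, mul_one]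

/-- The even part of an element of `L`. -/
lemma even_part {z : Module.End K V} (hz : z ∈ L) :
    ∃ a ∈ L, ∃ y ∈ oddPart ω p1 p2 L, z = a + y ∧ pr ω p1 p2 * a = a * pr ω p1 p2 := by
  refine ⟨z - (pr ω p1 p2 * z + z * pr ω p1 p2 - 2 • (pr ω p1 p2 * z * pr ω p1 p2)),
    L.sub_mem hz (H.oddp hz).1, _, H.oddp hz, by abel, ?_⟩
  have hh := pr_mul_pr H.alt H.h12
  set e := pr ω p1 p2
  have h1 : e * (z - (e * z + z * e - 2 • (e * z * e))) = e * z - (e * e) * z - e * z * e
    + 2 • ((e * e) * z * e) := by noncomm_ring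
  have h2 : (z - (e * z + z * e - 2 • (e * z * e))) * e = z * e - e * z * e - z * (e * e)
    + 2 • (e * z * (e * e)) := by noncomm_ring
  rw [h1, h2, hh]
  noncomm_ring

lemma br_even {a y : Module.End K V} (ha : a ∈ L) (hae : pr ω p1 p2 * a = a * pr ω p1 p2)
    (hy : y ∈ oddPart ω p1 p2 L) : a * y - y * a ∈ oddPart ω p1 p2 L := by
  refine ⟨H.ctx.irr.br a ha y hy.1, ?_⟩
  have h1 := odd2_iff.mp hy.2
  rw [odd2_iff]
  calc pr ω p1 p2 * (a * y - y * a) = (pr ω p1 p2 * a) * y - (pr ω p1 p2 * y) * a := by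
        noncomm_ring
    _ = a * (pr ω p1 p2 * y) - (pr ω p1 p2 * y) * a := by rw [hae]; noncomm_ring
    _ = a * y - a * y * pr ω p1 p2 - y * a + y * (pr ω p1 p2 * a) := by rw [h1]; noncomm_ring
    _ = a * y - a * y * pr ω p1 p2 - y * a + y * (a * pr ω p1 p2) := by rw [hae]
    _ = _ := by noncomm_ring

/-- Vectors outside the plane killed by all odd elements vanish. -/
lemma killed {v : V} (hv : pr ω p1 p2 v = 0) (h : ∀ z ∈ oddPart ω p1 p2 L, z v = 0) :
    v = 0 := by
  let W : Submodule K V :=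
    { carrier := {v | pr ω p1 p2 v = 0 ∧ ∀ z ∈ oddPart ω p1 p2 L, z v = 0}
      add_mem' := by
        rintro a b ⟨ha, ha'⟩ ⟨hb, hb'⟩
        exact ⟨by rw [map_add, ha, hb, add_zero], fun z hz => by
          rw [map_add, ha' z hz, hb' z hz, add_zero]⟩
      zero_mem' := ⟨by simp, fun z _ => by simp⟩
      smul_mem' := by
        rintro c a ⟨ha, ha'⟩
        exact ⟨by rw [map_smul, ha, smul_zero], fun z hz => by
          rw [map_smul, ha' z hz, smul_zero]⟩ }
  have hW : ∀ z ∈ L, ∀ w ∈ W, z w ∈ W := by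
    rintro z hz w ⟨hw, hw'⟩
    obtain ⟨a, ha, y, hy, rfl, hae⟩ := H.even_part hz
    have e : (a + y) w = a w := by rw [LinearMap.add_apply, hw' y hy, add_zero]
    rw [e]
    refine ⟨?_, fun z hz => ?_⟩
    · rw [← Module.End.mul_apply, hae, Module.End.mul_apply, hw, map_zero]
    · have := hw' _ (H.br_even ha hae hz)
      rw [LinearMap.sub_apply, Module.End.mul_apply, Module.End.mul_apply, hw' z hz, map_zero,
        zero_sub] at this
      exact neg_eq_zero.mp this
  rcases H.ctx.irr.irr W hW with h' | h'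
  · have : v ∈ W := ⟨hv, h⟩
    rw [h'] at this
    exact (Submodule.mem_bot K).mp this
  · exfalso
    have : p1 ∈ W := by rw [h']; trivial
    have := this.1
    rw [pr_p1 H.alt H.h12] at this
    exact H.p1_ne this

/-- The form is nondegenerate. -/
lemma form_nondeg [IsAlgClosed K] [CharZero K] {y : Module.End K V}
    (hy : y ∈ oddPart ω p1 p2 L) (h : ∀ z ∈ oddPart ω p1 p2 L, ω (z (y p1)) p2 = 0) : y = 0 := by
  apply H.small.eq_zero H.alt H.h12 hy.1 (H.sk hy) hy.2 (pr_p1 H.alt H.h12) H.p1_ne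
  apply H.killed (hy.2.pr_apply_eq_zero (pr_p1 H.alt H.h12))
  intro z hz
  rw [H.form hy hz (pr_p1 H.alt H.h12), h z hz, zero_smul]

/-- There is an involution which is not even. -/
lemma exists_inv (hdim : 2 < finrank K V) : ∃ s ∈ S, ∃ a ∈ L, ∃ y ∈ oddPart ω p1 p2 L,
    s = a + y ∧ pr ω p1 p2 * a = a * pr ω p1 p2 ∧ y ≠ 0 := by
  by_contra hcon
  push Not at hcon
  have hle : L ≤ (LinearMap.ker (LinearMap.mulLeft K (pr ω p1 p2) -
      LinearMap.mulRight K (pr ω p1 p2) : Module.End K (Module.End K V))) := by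
    apply H.ctx.gen
    · intro x hx y hy
      rw [LinearMap.mem_ker, LinearMap.sub_apply, LinearMap.mulLeft_apply,
        LinearMap.mulRight_apply, sub_eq_zero] at *
      calc pr ω p1 p2 * (x * y - y * x) = (pr ω p1 p2 * x) * y - (pr ω p1 p2 * y) * x := by
            noncomm_ring
        _ = (x * pr ω p1 p2) * y - (y * pr ω p1 p2) * x := by rw [hx, hy]
        _ = x * (pr ω p1 p2 * y) - y * (pr ω p1 p2 * x) := by noncomm_ring
        _ = x * (y * pr ω p1 p2) - y * (x * pr ω p1 p2) := by rw [hx, hy]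
        _ = (x * y - y * x) * pr ω p1 p2 := by noncomm_ring
    · intro s hs
      rw [LinearMap.mem_ker, LinearMap.sub_apply, LinearMap.mulLeft_apply,
        LinearMap.mulRight_apply, sub_eq_zero]
      obtain ⟨a, ha, y, hy, hs', hae⟩ := H.even_part (H.ctx.inv s hs).1
      have := hcon s hs a ha y hy hs' hae
      rw [hs', this, add_zero]
      exact hae
  have hP := H.ctx.irr.irr (LinearMap.range (pr ω p1 p2)) (by
    rintro z hz _ ⟨v, rfl⟩
    have := hle hz
    rw [LinearMap.mem_ker, LinearMap.sub_apply, LinearMap.mulLeft_apply,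
      LinearMap.mulRight_apply, sub_eq_zero] at this
    exact ⟨z v, by rw [← Module.End.mul_apply, this]; rfl⟩)
  rcases hP with h | h
  · have : p1 ∈ LinearMap.range (pr ω p1 p2) := ⟨p1, pr_p1 H.alt H.h12⟩
    rw [h] at this
    exact H.p1_ne ((Submodule.mem_bot K).mp this)
  · have h1 : rk (pr ω p1 p2) = finrank K V := by
      unfold rk; rw [h, finrank_top]
    have h2 : rk (pr ω p1 p2) ≤ 2 := by
      classical
      have h : LinearMap.range (pr ω p1 p2) ≤
          Submodule.span K (({p1, p2} : Finset V) : Set V) := by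
        rintro _ ⟨z, rfl⟩
        rw [pr_apply]
        apply Submodule.add_mem
        · exact Submodule.smul_mem _ _ (Submodule.subset_span (by simp))
        · exact Submodule.smul_mem _ _ (Submodule.subset_span (by simp))
      calc rk (pr ω p1 p2) ≤ finrank K (Submodule.span K (({p1, p2} : Finset V) : Set V)) :=
            Submodule.finrank_mono h
        _ ≤ ({p1, p2} : Finset V).card := finrank_span_finset_le_card _
        _ ≤ 2 := Finset.card_le_two
    omega

end Inv2

end MTP
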