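import Pool.Agent.Helper92.MT.Refl

/-!
The parity contradiction for a symplectic involution which is `-1` on a plane.
-/

open Module

namespace MTP

/-- A skew operator with square one for a nondegenerate form lives in even dimension. -/
lemma even_of_skew_invol {K : Type*} [Field K] [CharZero K] {U : Type*} [AddCommGroup U]
    [Module K U] [FiniteDimensional K U] {B : LinearMap.BilinForm K U} (hB : B.Nondegenerate)
    {A : Module.End K U} (hA : IsSk B A) (hAA : A * A = 1) : Even (finrank K U) := by
  have ht := trace_eq_zero_of_sk hB hA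
  have hi : IsIdempotentElem (pp A) := pp_mul_pp hAA
  have h1 : LinearMap.trace K U (pp A) = (finrank K (LinearMap.range (pp A)) : K) :=
    (LinearMap.IsIdempotentElem.isProj_range _ hi).trace
  have h2 : LinearMap.trace K U (pp A) = (2 : K)⁻¹ * (finrank K U : K) := by
    unfold pp
    rw [map_smul, map_add, ht, add_zero, LinearMap.trace_one, smul_eq_mul]
  rw [h1] at h2
  have h3 : (finrank K U : K) = ((finrank K (LinearMap.range (pp A)) +
      finrank K (LinearMap.range (pp A)) : ℕ) : K) := by
    push_cast
    rw [h2]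
    have : (2 : K) ≠ 0 := two_ne_zero
    field_simp
    ring
  exact ⟨_, by exact_mod_cast h3⟩

variable {K : Type*} [Field K] {V : Type*} [AddCommGroup V] [Module K V] [FiniteDimensional K V]
variable {ω : LinearMap.BilinForm K V} {L : Submodule K (Module.End K V)}
  {S : Set (Module.End K V)} {p1 p2 : V}

namespace Inv2
variable (H : Inv2 ω L S p1 p2)
include H

/-- **Contradiction.** -/
theorem odd_finrank [IsAlgClosed K] [CharZero K] (hdim : 2 < finrank K V) :
    Odd (finrank K (oddPart ω p1 p2 L)) := by
  obtain ⟨s, hs, a, ha, y, hy, hsa, hae, hy0⟩ := H.exists_inv hdim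
  have hss := (H.ctx.inv s hs).2
  have k1 := pr_p1 H.alt H.h12
  have k2 := pr_p2 H.alt H.h12
  have hask := H.ctx.irr.sk a ha
  -- separate the even and odd parts of `s * s = 1`
  have hyo := odd2_iff.mp hy.2
  set e := pr ω p1 p2 with he
  have hY : a * y + y * a = 0 := by
    have hX : a * a + y * y - 1 + (a * y + y * a) = 0 := by
      have : s * s - 1 = 0 := by rw [hss, sub_self]
      rw [hsa] at this
      rw [← this]; noncomm_ring
    have e1 : e * (a * a + y * y - 1) = (a * a + y * y - 1) * e := by
      calc e * (a * a + y * y - 1) = (e * a) * a + (e * y) * y - e := by noncomm_ring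
        _ = (a * e) * a + (y - y * e) * y - e := by rw [hae, hyo]
        _ = a * (e * a) + y * y - y * (e * y) - e := by noncomm_ring
        _ = a * (a * e) + y * y - y * (y - y * e) - e := by rw [hae, hyo]
        _ = _ := by noncomm_ring
    have e2 : e * (a * y + y * a) = (a * y + y * a) - (a * y + y * a) * e := by
      calc e * (a * y + y * a) = (e * a) * y + (e * y) * a := by noncomm_ring
        _ = (a * e) * y + (y - y * e) * a := by rw [hae, hyo]
        _ = a * (e * y) + y * a - y * (e * a) := by noncomm_ring
        _ = a * (y - y * e) + y * a - y * (a * e) := by rw [hae, hyo]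
        _ = _ := by noncomm_ring
    have h1 : e * (a * a + y * y - 1 + (a * y + y * a)) = 0 := by rw [hX, mul_zero]
    have h2 : (a * a + y * y - 1 + (a * y + y * a)) * e = 0 := by rw [hX, zero_mul]
    rw [mul_add, e1, e2] at h1
    rw [add_mul] at h2
    have h3 : (a * y + y * a) = 2 • ((a * y + y * a) * e) := by
      have : (a * a + y * y - 1) * e + ((a * y + y * a) - (a * y + y * a) * e) -
        ((a * a + y * y - 1) * e + (a * y + y * a) * e) = 0 := by rw [h1, h2, sub_zero]
      rw [← sub_eq_zero]
      rw [← this]; abel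
    have hee : e * e = e := pr_mul_pr H.alt H.h12
    have h4 : (a * y + y * a) * e = 0 := by
      have h5 : (a * y + y * a) * e = 2 • ((a * y + y * a) * e) := by
        nth_rewrite 1 [h3]
        rw [smul_mul_assoc, mul_assoc _ e e, hee]
      rw [two_smul] at h5
      exact (left_eq_add.mp h5)
    rw [h3, h4, smul_zero]
  have hX : a * a + y * y = 1 := by
    have : s * s = a * a + y * y + (a * y + y * a) := by rw [hsa]; noncomm_ring
    rw [hss, hY, add_zero] at this
    exact this.symm
  -- `a` kills the plane
  obtain ⟨z0, hz0, hz0'⟩ : ∃ z ∈ oddPart ω p1 p2 L, ω (z (y p1)) p2 ≠ 0 := by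
    by_contra hcon
    push Not at hcon
    exact hy0 (H.form_nondeg hy hcon)
  have haP : ∀ v, e v = v → e (a v) = a v := by
    intro v hv
    rw [← Module.End.mul_apply, hae, Module.End.mul_apply, hv]
  have hc := H.br_even ha hae hy
  have hcv : ∀ v, (a * y - y * a) v = (-2 : K) • y (a v) := by
    intro v
    have : a * y = - (y * a) := eq_neg_of_add_eq_zero_left hY
    rw [this]
    simp only [LinearMap.sub_apply, LinearMap.neg_apply, Module.End.mul_apply]
    module
  obtain ⟨c, hcc⟩ : ∃ c : K, ∀ v, e v = v → a v = c • v := by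
    refine ⟨(-2 * ω (z0 (y p1)) p2)⁻¹ * ω (z0 ((a * y - y * a) p1)) p2, fun v hv => ?_⟩
    have h1 := H.form hc hz0 hv
    have h2 := H.form hy hz0 (haP v hv)
    rw [hcv v, map_smul, h2, smul_smul] at h1
    rw [mul_smul, ← h1, smul_smul, inv_mul_cancel₀, one_smul]
    exact mul_ne_zero (by norm_num) hz0'
  have hc0 : c = 0 := by
    have h := hask p1 p2
    rw [hcc p1 k1, hcc p2 k2, map_smul, map_smul, LinearMap.smul_apply, H.h12] at h
    have h2 : (2 : K) * c = 0 := by
      simp only [smul_eq_mul, mul_one] at h
      linear_combination h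
    simpa using h2
  have haz : ∀ v, e v = v → a v = 0 := by
    intro v hv; rw [hcc v hv, hc0, zero_smul]
  have hcz : a * y - y * a = 0 := by
    apply H.small.eq_zero H.alt H.h12 hc.1 (H.sk hc) hc.2 k1 H.p1_ne
    rw [hcv, haz p1 k1, map_zero, smul_zero]
  have hay : a * y = 0 := by
    have h1 : a * y = y * a := sub_eq_zero.mp hcz
    rw [← h1, ← two_smul K] at hY
    exact (smul_eq_zero.mp hY).resolve_left two_ne_zero
  have hya : y * a = 0 := by
    rw [hay, zero_sub] at hcz
    exact neg_eq_zero.mp hcz
  -- the functional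
  let φ : oddPart ω p1 p2 L →ₗ[K] K :=
    { toFun := fun z => ω ((z : Module.End K V) (y p1)) p2
      map_add' := by intro z w; simp
      map_smul' := by intro c z; simp }
  have hφ : ∀ z : oddPart ω p1 p2 L, φ z = ω ((z : Module.End K V) (y p1)) p2 := fun _ => rfl
  have hyy : ∀ v, e v = v → y (y v) = v := by
    intro v hv
    have := congrArg (fun f : Module.End K V => f v) hX
    simp only [LinearMap.add_apply, Module.End.mul_apply, Module.End.one_apply, haz v hv,
      map_zero, zero_add] at this
    exact this
  have hφy : φ ⟨y, hy⟩ = 1 := by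
    rw [hφ]
    change ω (y (y p1)) p2 = 1
    rw [hyy p1 k1, H.h12]
  have hrange : finrank K (LinearMap.range φ) = 1 := by
    rw [LinearMap.range_eq_top.mpr, finrank_top, finrank_self]
    intro c
    exact ⟨c • ⟨y, hy⟩, by rw [map_smul, hφy, smul_eq_mul, mul_one]⟩
  have hrk := LinearMap.finrank_range_add_finrank_ker φ
  -- the operator `ad a`
  let A0 : Module.End K (oddPart ω p1 p2 L) :=
    { toFun := fun z => ⟨a * z - z * a, H.br_even ha hae z.2⟩
      map_add' := by
        intro z w; apply Subtype.ext
        simp only [Submodule.coe_add, mul_add, add_mul]; abel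
      map_smul' := by
        intro c z; apply Subtype.ext
        simp only [Submodule.coe_smul, mul_smul_comm, smul_mul_assoc, RingHom.id_apply, smul_sub] }
  have hA0 : ∀ z : oddPart ω p1 p2 L, ((A0 z : oddPart ω p1 p2 L) : Module.End K V) =
    a * z - z * a := fun _ => rfl
  have hA0v : ∀ (z : oddPart ω p1 p2 L) (v : V), e v = v →
      ((A0 z : oddPart ω p1 p2 L) : Module.End K V) v = a ((z : Module.End K V) v) := by
    intro z v hv
    rw [hA0, LinearMap.sub_apply, Module.End.mul_apply, Module.End.mul_apply, haz v hv, map_zero,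
      sub_zero]
  have hphiA : ∀ z, φ (A0 z) = 0 := by
    intro z
    have h1 := H.form_symm hy (A0 z).2
    rw [hφ, h1, hA0v z p1 k1]
    have : y (a ((z : Module.End K V) p1)) = 0 := by
      have := congrArg (fun f : Module.End K V => f ((z : Module.End K V) p1)) hya
      exact this
    rw [this]; simp
  let A : Module.End K (LinearMap.ker φ) :=
    A0.restrict (p := LinearMap.ker φ) (q := LinearMap.ker φ) (fun z _ => hphiA z)
  have hA : ∀ z : LinearMap.ker φ, (A z : oddPart ω p1 p2 L) = A0 z := fun _ => rfl
  have hAA : A * A = 1 := by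
    ext1 z
    apply Subtype.ext
    apply Subtype.ext
    rw [Module.End.mul_apply, hA, hA, Module.End.one_apply]
    have hzk : ω ((z : Module.End K V) (y p1)) p2 = 0 := z.2
    have hw : ((A0 (A0 z) : oddPart ω p1 p2 L) : Module.End K V) - (z : Module.End K V) = 0 := by
      have hmem : ((A0 (A0 z) : oddPart ω p1 p2 L) : Module.End K V) - (z : Module.End K V)
        ∈ oddPart ω p1 p2 L := Submodule.sub_mem _ (A0 (A0 z)).2 z.1.2
      apply H.small.eq_zero H.alt H.h12 hmem.1 (H.sk hmem) hmem.2 k1 H.p1_ne
      rw [LinearMap.sub_apply, hA0v _ p1 k1, hA0v _ p1 k1]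
      have h1 := congrArg (fun f : Module.End K V => f ((z : Module.End K V) p1)) hX
      simp only [LinearMap.add_apply, Module.End.mul_apply, Module.End.one_apply] at h1
      have h2 : y ((z : Module.End K V) p1) = 0 := by
        rw [H.form z.1.2 hy k1, ← H.form_symm hy z.1.2, hzk, zero_smul]
      rw [h2, map_zero, add_zero] at h1
      rw [h1, sub_self]
    exact sub_eq_zero.mp hw
  let B : LinearMap.BilinForm K (LinearMap.ker φ) :=
    LinearMap.mk₂ K (fun z w => ω ((w : Module.End K V) ((z : Module.End K V) p1)) p2)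
      (by intro z z' w; simp) (by intro c z w; simp) (by intro z w w'; simp)
      (by intro c z w; simp)
  have hB : ∀ z w : LinearMap.ker φ, B z w =
    ω ((w : Module.End K V) ((z : Module.End K V) p1)) p2 := fun _ _ => rfl
  have hBs : ∀ z w : LinearMap.ker φ, B z w = B w z := by
    intro z w
    rw [hB, hB]
    exact H.form_symm z.1.2 w.1.2
  have hBnd : ∀ z : LinearMap.ker φ, (∀ w, B z w = 0) → z = 0 := by
    intro z hz
    apply Subtype.ext
    apply Subtype.ext
    apply H.form_nondeg z.1.2
    intro w hw
    have hzk : ω ((z : Module.End K V) (y p1)) p2 = 0 := z.2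
    have hw' : φ (⟨w, hw⟩ - φ ⟨w, hw⟩ • ⟨y, hy⟩) = 0 := by
      rw [map_sub, map_smul, hφy, smul_eq_mul, mul_one, sub_self]
    have h1 := hz ⟨_, hw'⟩
    rw [hB] at h1
    have e2 : ω (y ((z : Module.End K V) p1)) p2 = 0 := by
      rw [← H.form_symm hy z.1.2]; exact hzk
    simp only [Submodule.coe_sub, Submodule.coe_smul, LinearMap.sub_apply, LinearMap.smul_apply,
      map_sub, map_smul, e2, smul_zero, sub_zero] at h1
    exact h1
  have hBn : B.Nondegenerate := by
    refine ⟨fun z hz => hBnd z hz, fun z hz => hBnd z (fun w => ?_)⟩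
    rw [hBs]; exact hz w
  have hsk : IsSk (V := LinearMap.ker φ) B A := by
    intro z w
    rw [hB, hB, hA, hA, hA0v _ p1 k1]
    have h1 : ((A0 w : oddPart ω p1 p2 L) : Module.End K V) ((z : Module.End K V) p1) =
        a ((w : Module.End K V) ((z : Module.End K V) p1)) -
          (w : Module.End K V) (a ((z : Module.End K V) p1)) := rfl
    rw [h1, H.form z.1.2 w.1.2 k1, map_smul, haz p1 k1, smul_zero, zero_sub, map_neg,
      LinearMap.neg_apply, neg_neg]
  have hev := even_of_skew_invol (U := LinearMap.ker φ) hBn hsk hAA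
  rw [hrange] at hrk
  rw [← hrk]
  rw [add_comm]
  exact hev.add_one

end Inv2

end MTP
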