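import Pool.Agent.Helper92.MT.Refl2

/-!
Lie algebras normalised by a symplectic operator with eigenvalues `b`, `b⁻¹` on a plane and equal
to the identity on the orthogonal of the plane.
-/

open Module

namespace MTP

variable {K : Type*} [Field K] {V : Type*} [AddCommGroup V] [Module K V]
variable {ω : LinearMap.BilinForm K V} {L : Submodule K (Module.End K V)}
  {S : Set (Module.End K V)} {p1 p2 : V}

/-- The complementary projection. -/
noncomputable def pr0 (ω : LinearMap.BilinForm K V) (p1 p2 : V) : Module.End K V :=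
  1 - pr ω p1 p2

/-- The operator with eigenvalues `b`, `b⁻¹` on the plane. -/
noncomputable def tor (ω : LinearMap.BilinForm K V) (p1 p2 : V) (b : K) : Module.End K V :=
  b • pr1 ω p1 p2 + b⁻¹ • pr2 ω p1 p2 + pr0 ω p1 p2

section proj
variable (halt : ω.IsAlt) (h12 : ω p1 p2 = 1)
include halt h12

omit halt in
lemma m11 : pr1 ω p1 p2 * pr1 ω p1 p2 = pr1 ω p1 p2 := by
  ext v; rw [Module.End.mul_apply, pr1_apply, pr1_apply]; simp [h12]

omit halt in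
lemma m22 : pr2 ω p1 p2 * pr2 ω p1 p2 = pr2 ω p1 p2 := by
  ext v; rw [Module.End.mul_apply, pr2_apply, pr2_apply]; simp [h12]

omit h12 in
lemma m12 : pr1 ω p1 p2 * pr2 ω p1 p2 = 0 := by
  ext v; rw [Module.End.mul_apply, pr1_apply, pr2_apply]; simp [halt.self_eq_zero]

omit h12 in
lemma m21 : pr2 ω p1 p2 * pr1 ω p1 p2 = 0 := by
  ext v; rw [Module.End.mul_apply, pr1_apply, pr2_apply]; simp [halt.self_eq_zero]

lemma m10 : pr1 ω p1 p2 * pr0 ω p1 p2 = 0 := by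
  unfold pr0 pr; rw [mul_sub, mul_add, m11 h12, m12 halt]; simp

lemma m20 : pr2 ω p1 p2 * pr0 ω p1 p2 = 0 := by
  unfold pr0 pr; rw [mul_sub, mul_add, m22 h12, m21 halt]; simp

lemma m01 : pr0 ω p1 p2 * pr1 ω p1 p2 = 0 := by
  unfold pr0 pr; rw [sub_mul, add_mul, m11 h12, m21 halt]; simp

lemma m02 : pr0 ω p1 p2 * pr2 ω p1 p2 = 0 := by
  unfold pr0 pr; rw [sub_mul, add_mul, m22 h12, m12 halt]; simp

lemma m00 : pr0 ω p1 p2 * pr0 ω p1 p2 = pr0 ω p1 p2 := by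
  have h1 := m10 halt h12
  have h2 := m20 halt h12
  have : pr0 ω p1 p2 * pr0 ω p1 p2 = pr0 ω p1 p2 - pr1 ω p1 p2 * pr0 ω p1 p2
    - pr2 ω p1 p2 * pr0 ω p1 p2 := by
    nth_rewrite 1 [pr0]
    unfold pr
    noncomm_ring
  rw [this, h1, h2]; simp

/-- Left action of the torus element on the three rows. -/
lemma tor_mul1 (b : K) : tor ω p1 p2 b * pr1 ω p1 p2 = b • pr1 ω p1 p2 := by
  unfold tor; rw [add_mul, add_mul, smul_mul_assoc, smul_mul_assoc, m11 h12, m21 halt,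
    m01 halt h12]; simp

lemma tor_mul2 (b : K) : tor ω p1 p2 b * pr2 ω p1 p2 = b⁻¹ • pr2 ω p1 p2 := by
  unfold tor; rw [add_mul, add_mul, smul_mul_assoc, smul_mul_assoc, m22 h12, m12 halt,
    m02 halt h12]; simp

lemma tor_mul0 (b : K) : tor ω p1 p2 b * pr0 ω p1 p2 = pr0 ω p1 p2 := by
  unfold tor; rw [add_mul, add_mul, smul_mul_assoc, smul_mul_assoc, m10 halt h12,
    m20 halt h12, m00 halt h12]; simp

lemma mul_tor1 (b : K) : pr1 ω p1 p2 * tor ω p1 p2 b = b • pr1 ω p1 p2 := by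
  unfold tor; rw [mul_add, mul_add, mul_smul_comm, mul_smul_comm, m11 h12, m12 halt,
    m10 halt h12]; simp

lemma mul_tor2 (b : K) : pr2 ω p1 p2 * tor ω p1 p2 b = b⁻¹ • pr2 ω p1 p2 := by
  unfold tor; rw [mul_add, mul_add, mul_smul_comm, mul_smul_comm, m22 h12, m21 halt,
    m20 halt h12]; simp

lemma mul_tor0 (b : K) : pr0 ω p1 p2 * tor ω p1 p2 b = pr0 ω p1 p2 := by
  unfold tor; rw [mul_add, mul_add, mul_smul_comm, mul_smul_comm, m01 halt h12,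
    m02 halt h12, m00 halt h12]; simp

end proj

/-- Conjugation by the torus element, on all of `End V`. -/
noncomputable def TT2 (ω : LinearMap.BilinForm K V) (p1 p2 : V) (b : K) :
    Module.End K V →ₗ[K] Module.End K V where
  toFun z := tor ω p1 p2 b * z * tor ω p1 p2 b⁻¹
  map_add' x y := by noncomm_ring
  map_smul' c x := by simp [mul_smul_comm, smul_mul_assoc]

lemma TT2_apply (b : K) (z : Module.End K V) :
    TT2 ω p1 p2 b z = tor ω p1 p2 b * z * tor ω p1 p2 b⁻¹ := rfl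

lemma TT2_block {P Q z : Module.End K V} {b s t : K} (hP : tor ω p1 p2 b * P = s • P)
    (hQ : Q * tor ω p1 p2 b⁻¹ = t • Q) :
    TT2 ω p1 p2 b (P * z * Q) = (s * t) • (P * z * Q) := by
  rw [TT2_apply]
  calc tor ω p1 p2 b * (P * z * Q) * tor ω p1 p2 b⁻¹
      = (tor ω p1 p2 b * P) * z * (Q * tor ω p1 p2 b⁻¹) := by noncomm_ring
    _ = _ := by
      rw [hP, hQ]
      simp only [smul_mul_assoc, mul_smul_comm, smul_smul]
      rw [mul_comm]

/-- The decomposition of an operator into blocks, grouped by weights. -/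
lemma blocks (z : Module.End K V) :
    z = (pr1 ω p1 p2 * z * pr1 ω p1 p2 + pr2 ω p1 p2 * z * pr2 ω p1 p2
        + pr0 ω p1 p2 * z * pr0 ω p1 p2)
      + (pr1 ω p1 p2 * z * pr0 ω p1 p2 + pr0 ω p1 p2 * z * pr2 ω p1 p2)
      + (pr2 ω p1 p2 * z * pr0 ω p1 p2 + pr0 ω p1 p2 * z * pr1 ω p1 p2)
      + pr1 ω p1 p2 * z * pr2 ω p1 p2 + pr2 ω p1 p2 * z * pr1 ω p1 p2 := by
  have h : pr1 ω p1 p2 + pr2 ω p1 p2 + pr0 ω p1 p2 = 1 := by unfold pr0 pr; abel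
  calc z = (pr1 ω p1 p2 + pr2 ω p1 p2 + pr0 ω p1 p2) * z *
      (pr1 ω p1 p2 + pr2 ω p1 p2 + pr0 ω p1 p2) := by rw [h]; simp
    _ = _ := by
      generalize pr1 ω p1 p2 = A
      generalize pr2 ω p1 p2 = B
      generalize pr0 ω p1 p2 = C
      noncomm_ring

section weights
variable (halt : ω.IsAlt) (h12 : ω p1 p2 = 1) {b : K} (hb : b ≠ 0)
include halt h12 hb

lemma wt0 (z : Module.End K V) : TT2 ω p1 p2 b (pr1 ω p1 p2 * z * pr1 ω p1 p2
      + pr2 ω p1 p2 * z * pr2 ω p1 p2 + pr0 ω p1 p2 * z * pr0 ω p1 p2) =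
    (1 : K) • (pr1 ω p1 p2 * z * pr1 ω p1 p2 + pr2 ω p1 p2 * z * pr2 ω p1 p2
      + pr0 ω p1 p2 * z * pr0 ω p1 p2) := by
  have h0 := tor_mul0 halt h12 b
  have h0' := mul_tor0 halt h12 b⁻¹
  rw [← one_smul K (pr0 ω p1 p2)] at h0 h0'
  rw [one_smul] at h0 h0'
  have h0a : tor ω p1 p2 b * pr0 ω p1 p2 = (1 : K) • pr0 ω p1 p2 := by rw [one_smul]; exact h0
  have h0b : pr0 ω p1 p2 * tor ω p1 p2 b⁻¹ = (1 : K) • pr0 ω p1 p2 := by
    rw [one_smul]; exact h0'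
  rw [map_add, map_add, TT2_block (tor_mul1 halt h12 b) (mul_tor1 halt h12 b⁻¹),
    TT2_block (tor_mul2 halt h12 b) (mul_tor2 halt h12 b⁻¹), TT2_block h0a h0b]
  rw [mul_inv_cancel₀ hb, inv_inv, inv_mul_cancel₀ hb, mul_one]
  module

lemma wt1 (z : Module.End K V) : TT2 ω p1 p2 b (pr1 ω p1 p2 * z * pr0 ω p1 p2
      + pr0 ω p1 p2 * z * pr2 ω p1 p2) =
    b • (pr1 ω p1 p2 * z * pr0 ω p1 p2 + pr0 ω p1 p2 * z * pr2 ω p1 p2) := by
  have h0a : tor ω p1 p2 b * pr0 ω p1 p2 = (1 : K) • pr0 ω p1 p2 := by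
    rw [one_smul]; exact tor_mul0 halt h12 b
  have h0b : pr0 ω p1 p2 * tor ω p1 p2 b⁻¹ = (1 : K) • pr0 ω p1 p2 := by
    rw [one_smul]; exact mul_tor0 halt h12 b⁻¹
  rw [map_add, TT2_block (tor_mul1 halt h12 b) h0b, TT2_block h0a (mul_tor2 halt h12 b⁻¹),
    inv_inv]
  module

lemma wtm1 (z : Module.End K V) : TT2 ω p1 p2 b (pr2 ω p1 p2 * z * pr0 ω p1 p2
      + pr0 ω p1 p2 * z * pr1 ω p1 p2) =
    b⁻¹ • (pr2 ω p1 p2 * z * pr0 ω p1 p2 + pr0 ω p1 p2 * z * pr1 ω p1 p2) := by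
  have h0a : tor ω p1 p2 b * pr0 ω p1 p2 = (1 : K) • pr0 ω p1 p2 := by
    rw [one_smul]; exact tor_mul0 halt h12 b
  have h0b : pr0 ω p1 p2 * tor ω p1 p2 b⁻¹ = (1 : K) • pr0 ω p1 p2 := by
    rw [one_smul]; exact mul_tor0 halt h12 b⁻¹
  rw [map_add, TT2_block (tor_mul2 halt h12 b) h0b, TT2_block h0a (mul_tor1 halt h12 b⁻¹)]
  module

lemma wt2 (z : Module.End K V) : TT2 ω p1 p2 b (pr1 ω p1 p2 * z * pr2 ω p1 p2) =
    (b * b) • (pr1 ω p1 p2 * z * pr2 ω p1 p2) := by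
  rw [TT2_block (tor_mul1 halt h12 b) (mul_tor2 halt h12 b⁻¹), inv_inv]

lemma wtm2 (z : Module.End K V) : TT2 ω p1 p2 b (pr2 ω p1 p2 * z * pr1 ω p1 p2) =
    (b⁻¹ * b⁻¹) • (pr2 ω p1 p2 * z * pr1 ω p1 p2) := by
  rw [TT2_block (tor_mul2 halt h12 b) (mul_tor1 halt h12 b⁻¹)]

end weights

end MTP
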