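import Pool.Agent.Helper92.MT.Torus

/-!
Lie algebras normalised by a symplectic operator with eigenvalues `b`, `b⁻¹` on a plane and equal
to the identity on the orthogonal of the plane: the contradiction in all cases.
-/

open Module

namespace MTP

variable {K : Type*} [Field K] {V : Type*} [AddCommGroup V] [Module K V] [FiniteDimensional K V]
variable {ω : LinearMap.BilinForm K V} {L : Submodule K (Module.End K V)}
  {S : Set (Module.End K V)} {p1 p2 : V}

/-- Elements of weight one which are odd vanish when there are no small elements. -/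
lemma row_zero (hC : Ctx ω L S) (halt : ω.IsAlt) (hN : NoSmall L) (h12 : ω p1 p2 = 1)
    {z : Module.End K V}
    (hz : pr1 ω p1 p2 * z * pr0 ω p1 p2 + pr0 ω p1 p2 * z * pr2 ω p1 p2 ∈ L) :
    pr0 ω p1 p2 * z * pr2 ω p1 p2 = 0 := by
  have h0 : pr1 ω p1 p2 * z * pr0 ω p1 p2 + pr0 ω p1 p2 * z * pr2 ω p1 p2 = 0 := by
    apply hN.eq_zero halt h12 hz (hC.irr.sk _ hz) ?_ (pr_p1 halt h12) (p0 := p1)
    · rintro rfl; simp at h12
    · have e1 : pr0 ω p1 p2 p1 = 0 := by
        unfold pr0; rw [LinearMap.sub_apply, Module.End.one_apply, pr_p1 halt h12, sub_self]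
      have e2 : pr2 ω p1 p2 p1 = 0 := by rw [pr2_apply, halt.self_eq_zero, zero_smul]
      simp only [LinearMap.add_apply, Module.End.mul_apply, e1, e2, map_zero, add_zero]
    · unfold Odd2
      have a1 : pr ω p1 p2 * pr1 ω p1 p2 = pr1 ω p1 p2 := by
        unfold pr; rw [add_mul, m11 h12, m21 halt, add_zero]
      have a2 : pr ω p1 p2 * pr0 ω p1 p2 = 0 := by
        unfold pr; rw [add_mul, m10 halt h12, m20 halt h12, add_zero]
      have a3 : pr0 ω p1 p2 * pr ω p1 p2 = 0 := by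
        unfold pr; rw [mul_add, m01 halt h12, m02 halt h12, add_zero]
      have a4 : pr2 ω p1 p2 * pr ω p1 p2 = pr2 ω p1 p2 := by
        unfold pr; rw [mul_add, m22 h12, m21 halt, zero_add]
      have e1 : pr ω p1 p2 * (pr1 ω p1 p2 * z * pr0 ω p1 p2 + pr0 ω p1 p2 * z * pr2 ω p1 p2) =
        (pr ω p1 p2 * pr1 ω p1 p2) * z * pr0 ω p1 p2 +
          (pr ω p1 p2 * pr0 ω p1 p2) * z * pr2 ω p1 p2 := by noncomm_ring
      have e2 : (pr1 ω p1 p2 * z * pr0 ω p1 p2 + pr0 ω p1 p2 * z * pr2 ω p1 p2) * pr ω p1 p2 =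
        pr1 ω p1 p2 * z * (pr0 ω p1 p2 * pr ω p1 p2) +
          pr0 ω p1 p2 * z * (pr2 ω p1 p2 * pr ω p1 p2) := by noncomm_ring
      rw [e1, e2, a1, a2, a3, a4]
      simp
  have h1 : pr0 ω p1 p2 * (pr1 ω p1 p2 * z * pr0 ω p1 p2 + pr0 ω p1 p2 * z * pr2 ω p1 p2) =
      (pr0 ω p1 p2 * pr1 ω p1 p2) * z * pr0 ω p1 p2 +
        (pr0 ω p1 p2 * pr0 ω p1 p2) * z * pr2 ω p1 p2 := by noncomm_ring
  rw [h0, m01 halt h12, m00 halt h12, mul_zero] at h1
  simpa using h1.symm

/-- Exchange of the two vectors of the plane. -/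
lemma pr1_swap (p1 p2 : V) (halt : ω.IsAlt) : pr1 ω p2 (-p1) = pr2 ω p1 p2 := by
  ext v
  rw [pr1_apply, pr2_apply, map_neg, halt.neg_eq]

lemma pr2_swap (p1 p2 : V) (halt : ω.IsAlt) : pr2 ω p2 (-p1) = pr1 ω p1 p2 := by
  ext v
  rw [pr1_apply, pr2_apply, smul_neg, ← neg_smul, halt.neg_eq]

lemma pr_swap (p1 p2 : V) (halt : ω.IsAlt) : pr ω p2 (-p1) = pr ω p1 p2 := by
  unfold pr; rw [pr1_swap p1 p2 halt, pr2_swap p1 p2 halt, add_comm]

lemma pr0_swap (p1 p2 : V) (halt : ω.IsAlt) : pr0 ω p2 (-p1) = pr0 ω p1 p2 := by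
  unfold pr0; rw [pr_swap p1 p2 halt]

lemma tor_swap (p1 p2 : V) (halt : ω.IsAlt) (b : K) :
    tor ω p2 (-p1) b⁻¹ = tor ω p1 p2 b := by
  unfold tor
  rw [pr1_swap p1 p2 halt, pr2_swap p1 p2 halt, pr0_swap p1 p2 halt, inv_inv]
  abel

lemma swap_one (halt : ω.IsAlt) (h12 : ω p1 p2 = 1) : ω p2 (-p1) = 1 := by
  rw [map_neg, halt.neg_eq, h12]

lemma TT2_swap (p1 p2 : V) (halt : ω.IsAlt) (b : K) :
    TT2 ω p2 (-p1) b⁻¹ = TT2 ω p1 p2 b := by
  apply LinearMap.ext
  intro z
  rw [TT2_apply, TT2_apply, tor_swap p1 p2 halt, tor_swap p1 p2 halt]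

/-- The plane cannot be invariant. -/
lemma false_of_rows (hC : Ctx ω L S) (halt : ω.IsAlt) (h12 : ω p1 p2 = 1)
    (hdim : 2 < finrank K V) (h1 : ∀ z ∈ L, pr0 ω p1 p2 * z * pr1 ω p1 p2 = 0)
    (h2 : ∀ z ∈ L, pr0 ω p1 p2 * z * pr2 ω p1 p2 = 0) : False := by
  have hP := hC.irr.irr (LinearMap.range (pr ω p1 p2)) (by
    rintro z hz _ ⟨v, rfl⟩
    refine ⟨z (pr ω p1 p2 v), ?_⟩
    have : pr0 ω p1 p2 * z * pr ω p1 p2 = 0 := by
      unfold pr at *
      rw [mul_add, h1 z hz, h2 z hz, add_zero]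
    have := congrArg (fun f : Module.End K V => f v) this
    simp only [Module.End.mul_apply, LinearMap.zero_apply, pr0, LinearMap.sub_apply,
      Module.End.one_apply, sub_eq_zero] at this
    exact this.symm)
  have hp : p1 ≠ 0 := by rintro rfl; simp at h12
  rcases hP with h | h
  · have : p1 ∈ LinearMap.range (pr ω p1 p2) := ⟨p1, pr_p1 halt h12⟩
    rw [h] at this
    exact hp ((Submodule.mem_bot K).mp this)
  · have h1 : rk (pr ω p1 p2) = finrank K V := by
      unfold rk; rw [h, finrank_top]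
    have h2 : rk (pr ω p1 p2) ≤ 2 := by
      classical
      have h : LinearMap.range (pr ω p1 p2) ≤
          Submodule.span K (({p1, p2} : Finset V) : Set V) := by
        rintro _ ⟨z, rfl⟩
        rw [pr_apply]
        apply Submodule.add_mem
        · exact Submodule.smul_mem _ _ (Submodule.subset_span (by simp))
        · exact Submodule.smul_mem _ _ (Submodule.subset_span (by simp))
      calc rk (pr ω p1 p2) ≤ finrank K (Submodule.span K (({p1, p2} : Finset V) : Set V)) :=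
            Submodule.finrank_mono h
        _ ≤ ({p1, p2} : Finset V).card := finrank_span_finset_le_card _
        _ ≤ 2 := Finset.card_le_two
    omega

/-- One step of interpolation. -/
lemma step_mem {T : Module.End K V →ₗ[K] Module.End K V} (hT : ∀ z ∈ L, T z ∈ L)
    {z : Module.End K V} (hz : z ∈ L) (c : K) : T z - c • z ∈ L :=
  L.sub_mem (hT z hz) (L.smul_mem c hz)

/-- The generic case. -/
lemma rows_generic (hC : Ctx ω L S) (halt : ω.IsAlt) (hN : NoSmall L) (h12 : ω p1 p2 = 1) {b : K}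
    (hb : b ≠ 0) (hb2 : b * b ≠ 1) (hb3 : b * b * b ≠ 1)
    (hT : ∀ z ∈ L, TT2 ω p1 p2 b z ∈ L) {z : Module.End K V} (hz : z ∈ L) :
    pr0 ω p1 p2 * z * pr2 ω p1 p2 = 0 := by
  have hb1 : b ≠ 1 := by rintro rfl; simp at hb2
  apply row_zero hC halt hN h12
  have hd := blocks (ω := ω) (p1 := p1) (p2 := p2) z
  have w0 := wt0 halt h12 hb z
  have w1 := wt1 halt h12 hb z
  have wm1 := wtm1 halt h12 hb z
  have w2 := wt2 halt h12 hb z
  have wm2 := wtm2 halt h12 hb z
  set T := TT2 ω p1 p2 b with hTd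
  set a0 := pr1 ω p1 p2 * z * pr1 ω p1 p2 + pr2 ω p1 p2 * z * pr2 ω p1 p2
        + pr0 ω p1 p2 * z * pr0 ω p1 p2
  set a1 := pr1 ω p1 p2 * z * pr0 ω p1 p2 + pr0 ω p1 p2 * z * pr2 ω p1 p2
  set am1 := pr2 ω p1 p2 * z * pr0 ω p1 p2 + pr0 ω p1 p2 * z * pr1 ω p1 p2
  set a2 := pr1 ω p1 p2 * z * pr2 ω p1 p2
  set am2 := pr2 ω p1 p2 * z * pr1 ω p1 p2
  have m := step_mem hT (step_mem hT (step_mem hT (step_mem hT hz 1) b⁻¹) (b * b)) (b⁻¹ * b⁻¹)
  have e : T (T (T (T z - (1 : K) • z) - b⁻¹ • (T z - (1 : K) • z))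
      - (b * b) • (T (T z - (1 : K) • z) - b⁻¹ • (T z - (1 : K) • z)))
      - (b⁻¹ * b⁻¹) • (T (T (T z - (1 : K) • z) - b⁻¹ • (T z - (1 : K) • z))
      - (b * b) • (T (T z - (1 : K) • z) - b⁻¹ • (T z - (1 : K) • z))) =
      ((b - 1) * (b - b⁻¹) * (b - b * b) * (b - b⁻¹ * b⁻¹)) • a1 := by
    rw [hd]
    simp only [map_sub, map_add, map_smul, w0, w1, wm1, w2, wm2]
    module
  rw [e] at m
  have hne : (b - 1) * (b - b⁻¹) * (b - b * b) * (b - b⁻¹ * b⁻¹) ≠ 0 := by
    apply mul_ne_zero (mul_ne_zero (mul_ne_zero _ _) _) _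
    · exact sub_ne_zero.mpr hb1
    · rw [sub_ne_zero]
      intro h
      apply hb2
      nth_rewrite 2 [h]
      exact mul_inv_cancel₀ hb
    · rw [sub_ne_zero]
      intro h
      apply hb1
      exact (mul_left_cancel₀ hb (by rw [mul_one]; exact h)).symm
    · rw [sub_ne_zero]
      intro h
      apply hb3
      have : b * b * b = b * b * (b⁻¹ * b⁻¹) := by rw [← h]
      rw [this]
      field_simp
  have := L.smul_mem (((b - 1) * (b - b⁻¹) * (b - b * b) * (b - b⁻¹ * b⁻¹)))⁻¹ m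
  rwa [smul_smul, inv_mul_cancel₀ hne, one_smul] at this

theorem false_generic (hC : Ctx ω L S) (halt : ω.IsAlt) (hN : NoSmall L) (h12 : ω p1 p2 = 1)
    (hdim : 2 < finrank K V) {b : K} (hb : b ≠ 0) (hb2 : b * b ≠ 1) (hb3 : b * b * b ≠ 1)
    (hT : ∀ z ∈ L, TT2 ω p1 p2 b z ∈ L) : False := by
  apply false_of_rows hC halt h12 hdim
  · intro z hz
    have := rows_generic hC halt hN (swap_one halt h12) (inv_ne_zero hb)
      (b := b⁻¹) (by
        intro h; apply hb2
        have : (b * b) * (b⁻¹ * b⁻¹) = 1 := by field_simp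
        rw [h, mul_one] at this; exact this) (by
        intro h; apply hb3
        have : (b * b * b) * (b⁻¹ * b⁻¹ * b⁻¹) = 1 := by field_simp
        rw [h, mul_one] at this; exact this) (by
        rw [TT2_swap p1 p2 halt]; exact hT) hz
    rw [pr0_swap p1 p2 halt, pr2_swap p1 p2 halt] at this
    exact this
  · intro z hz
    exact rows_generic hC halt hN h12 hb hb2 hb3 hT hz

/-- The elements of weight `b` when `b` is a cube root of unity. -/
noncomputable def cubeRow (ω : LinearMap.BilinForm K V) (p1 p2 : V) (z : Module.End K V) : Module.End K V :=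
  pr1 ω p1 p2 * z * pr0 ω p1 p2 + pr0 ω p1 p2 * z * pr2 ω p1 p2 + pr2 ω p1 p2 * z * pr1 ω p1 p2

lemma cubeRow_mem (halt : ω.IsAlt) (h12 : ω p1 p2 = 1) {b : K}
    (hb1 : b ≠ 1) (hb3 : b * b * b = 1)
    (hT : ∀ z ∈ L, TT2 ω p1 p2 b z ∈ L) {z : Module.End K V} (hz : z ∈ L) :
    cubeRow ω p1 p2 z ∈ L := by
  have hb : b ≠ 0 := by rintro rfl; simp at hb3
  have hinv : b⁻¹ = b * b := by
    field_simp; linear_combination -hb3
  have hb2 : b * b ≠ 1 := by
    intro h; rw [h, one_mul] at hb3; exact hb1 hb3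
  have hd := blocks (ω := ω) (p1 := p1) (p2 := p2) z
  have w0 := wt0 halt h12 hb z
  have w1 := wt1 halt h12 hb z
  have wm1 := wtm1 halt h12 hb z
  have w2 := wt2 halt h12 hb z
  have wm2 := wtm2 halt h12 hb z
  have hinv2 : b⁻¹ * b⁻¹ = b := by
    rw [hinv]; linear_combination b * hb3
  unfold cubeRow
  rw [hinv2] at wm2
  rw [hinv] at wm1
  set T := TT2 ω p1 p2 b with hTd
  set a0 := pr1 ω p1 p2 * z * pr1 ω p1 p2 + pr2 ω p1 p2 * z * pr2 ω p1 p2
        + pr0 ω p1 p2 * z * pr0 ω p1 p2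
  set a1 := pr1 ω p1 p2 * z * pr0 ω p1 p2 + pr0 ω p1 p2 * z * pr2 ω p1 p2
  set am1 := pr2 ω p1 p2 * z * pr0 ω p1 p2 + pr0 ω p1 p2 * z * pr1 ω p1 p2
  set a2 := pr1 ω p1 p2 * z * pr2 ω p1 p2
  set am2 := pr2 ω p1 p2 * z * pr1 ω p1 p2
  have m := step_mem hT (step_mem hT hz 1) (b * b)
  have e : T (T z - (1 : K) • z) - (b * b) • (T z - (1 : K) • z) =
      ((b - 1) * (b - b * b)) • (a1 + am2) := by
    rw [hd]
    simp only [map_sub, map_add, map_smul, w0, w1, wm1, w2, wm2]
    module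
  rw [e] at m
  have hne : (b - 1) * (b - b * b) ≠ 0 := by
    apply mul_ne_zero (sub_ne_zero.mpr hb1)
    rw [sub_ne_zero]
    intro h
    apply hb1
    exact (mul_left_cancel₀ hb (by rw [mul_one]; exact h)).symm
  have := L.smul_mem ((b - 1) * (b - b * b))⁻¹ m
  rwa [smul_smul, inv_mul_cancel₀ hne, one_smul] at this

/-- The weight `b` part of an element, when `b` is a cube root of unity. -/
structure IsCube (ω : LinearMap.BilinForm K V) (p1 p2 : V) (L : Submodule K (Module.End K V))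
    (z : Module.End K V) : Prop where
  mem : z ∈ L
  eq : cubeRow ω p1 p2 z = z

lemma cubeRow_idem (halt : ω.IsAlt) (h12 : ω p1 p2 = 1) (z : Module.End K V) :
    cubeRow ω p1 p2 (cubeRow ω p1 p2 z) = cubeRow ω p1 p2 z := by
  unfold cubeRow
  have e11 := m11 (ω := ω) h12
  have e22 := m22 (ω := ω) h12
  have e00 := m00 halt h12
  have e12 := m12 (ω := ω) (p1 := p1) (p2 := p2) halt
  have e21 := m21 (ω := ω) (p1 := p1) (p2 := p2) halt
  have e10 := m10 halt h12
  have e20 := m20 halt h12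
  have e01 := m01 halt h12
  have e02 := m02 halt h12
  generalize pr1 ω p1 p2 = A at *
  generalize pr2 ω p1 p2 = B at *
  generalize pr0 ω p1 p2 = C at *
  have h : A * (A * z * C + C * z * B + B * z * A) * C + C * (A * z * C + C * z * B + B * z * A) * B
      + B * (A * z * C + C * z * B + B * z * A) * A =
    ((A * A) * z * (C * C) + (A * C) * z * (B * C) + (A * B) * z * (A * C)) +
    ((C * A) * z * (C * B) + (C * C) * z * (B * B) + (C * B) * z * (A * B)) +
    ((B * A) * z * (C * A) + (B * C) * z * (B * A) + (B * B) * z * (A * A)) := by noncomm_ring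
  rw [h, e11, e22, e00, e12, e21, e10, e20, e01, e02]
  simp

lemma cubeRow_apply_p1 (halt : ω.IsAlt) (h12 : ω p1 p2 = 1) (z : Module.End K V) :
    cubeRow ω p1 p2 z p1 = ω p1 (z p1) • p2 := by
  have e0 : pr0 ω p1 p2 p1 = 0 := by
    unfold pr0; rw [LinearMap.sub_apply, Module.End.one_apply, pr_p1 halt h12, sub_self]
  have e1 : pr1 ω p1 p2 p1 = p1 := by rw [pr1_apply, h12, one_smul]
  have e2 : pr2 ω p1 p2 p1 = 0 := by rw [pr2_apply, halt.self_eq_zero, zero_smul]
  unfold cubeRow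
  simp only [LinearMap.add_apply, Module.End.mul_apply, e0, e1, e2, map_zero, add_zero, zero_add,
    pr2_apply]

lemma cubeRow_apply_p2 (halt : ω.IsAlt) (h12 : ω p1 p2 = 1) (z : Module.End K V) :
    cubeRow ω p1 p2 z p2 = pr0 ω p1 p2 (z p2) := by
  have e0 : pr0 ω p1 p2 p2 = 0 := by
    unfold pr0; rw [LinearMap.sub_apply, Module.End.one_apply, pr_p2 halt h12, sub_self]
  have e1 : pr1 ω p1 p2 p2 = 0 := by rw [pr1_apply, halt.self_eq_zero, zero_smul]
  have e2 : pr2 ω p1 p2 p2 = p2 := by rw [pr2_apply, h12, one_smul]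
  unfold cubeRow
  simp only [LinearMap.add_apply, Module.End.mul_apply, e0, e1, e2, map_zero, add_zero, zero_add]

lemma cubeRow_apply_q (halt : ω.IsAlt) (h12 : ω p1 p2 = 1) (z : Module.End K V) {v : V}
    (hv : pr ω p1 p2 v = 0) : cubeRow ω p1 p2 z v = ω (z v) p2 • p1 := by
  have e0 : pr0 ω p1 p2 v = v := by
    unfold pr0; rw [LinearMap.sub_apply, Module.End.one_apply, hv, sub_zero]
  have e1 : pr1 ω p1 p2 v = 0 := by
    have : pr1 ω p1 p2 * pr ω p1 p2 = pr1 ω p1 p2 := by
      unfold pr; rw [mul_add, m11 h12, m12 halt, add_zero]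
    rw [← this, Module.End.mul_apply, hv, map_zero]
  have e2 : pr2 ω p1 p2 v = 0 := by
    have : pr2 ω p1 p2 * pr ω p1 p2 = pr2 ω p1 p2 := by
      unfold pr; rw [mul_add, m22 h12, m21 halt, zero_add]
    rw [← this, Module.End.mul_apply, hv, map_zero]
  unfold cubeRow
  simp only [LinearMap.add_apply, Module.End.mul_apply, e0, e1, e2, map_zero, add_zero,
    pr1_apply]

/-- Weight `b` elements killing `p1` vanish. -/
lemma IsCube.eq_zero (hC : Ctx ω L S) (halt : ω.IsAlt) (hN : NoSmall L) (h12 : ω p1 p2 = 1)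
    {z : Module.End K V} (hz : IsCube ω p1 p2 L z) (h : ω p1 (z p1) = 0) : z = 0 := by
  have hzp : z p1 = 0 := by
    rw [← hz.eq, cubeRow_apply_p1 halt h12, h, zero_smul]
  have e3 : pr2 ω p1 p2 * z * pr1 ω p1 p2 = 0 := by
    ext v
    rw [Module.End.mul_apply, Module.End.mul_apply, pr1_apply, map_smul, hzp]
    simp
  have e := hz.eq
  unfold cubeRow at e
  rw [e3, add_zero] at e
  have hmem : pr1 ω p1 p2 * z * pr0 ω p1 p2 + pr0 ω p1 p2 * z * pr2 ω p1 p2 ∈ L := by
    rw [e]; exact hz.mem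
  have h0 := row_zero hC halt hN h12 hmem
  rw [h0, add_zero] at e
  -- now `z = pr1 z pr0` which is skew only if it vanishes
  have hp2 : z p2 = 0 := by
    rw [← hz.eq, cubeRow_apply_p2 halt h12]
    have := congrArg (fun f : Module.End K V => f p2) h0
    have e2 : pr2 ω p1 p2 p2 = p2 := by rw [pr2_apply, h12, one_smul]
    simp only [Module.End.mul_apply, e2] at this
    exact this
  have hsk := hC.irr.sk z hz.mem
  ext v
  rw [← e, Module.End.mul_apply, Module.End.mul_apply, pr1_apply, hsk, hp2]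
  simp


/-- There is at most a line of weight `b` elements. -/
lemma exists_gen (hC : Ctx ω L S) (halt : ω.IsAlt) (hN : NoSmall L) (h12 : ω p1 p2 = 1) :
    ∃ z1, IsCube ω p1 p2 L z1 ∧ ∀ z, IsCube ω p1 p2 L z → ∃ a : K, z = a • z1 := by
  have hlin : ∀ (z z' : Module.End K V) (a : K),
      cubeRow ω p1 p2 (z - a • z') = cubeRow ω p1 p2 z - a • cubeRow ω p1 p2 z' := by
    intro z z' a
    unfold cubeRow
    simp only [mul_sub, sub_mul, mul_smul_comm, smul_mul_assoc, smul_add]
    abel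
  by_cases h : ∀ z, IsCube ω p1 p2 L z → z = 0
  · refine ⟨0, ⟨L.zero_mem, by unfold cubeRow; simp⟩, fun z hz => ⟨0, by rw [h z hz]; simp⟩⟩
  · push Not at h
    obtain ⟨z1, hz1, hne⟩ := h
    have hc : ω p1 (z1 p1) ≠ 0 := fun h0 => hne (hz1.eq_zero hC halt hN h12 h0)
    refine ⟨z1, hz1, fun z hz => ⟨ω p1 (z p1) / ω p1 (z1 p1), ?_⟩⟩
    have hcube : IsCube ω p1 p2 L (z - (ω p1 (z p1) / ω p1 (z1 p1)) • z1) := by
      refine ⟨L.sub_mem hz.mem (L.smul_mem _ hz1.mem), ?_⟩
      rw [hlin, hz.eq, hz1.eq]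
    have := hcube.eq_zero hC halt hN h12 (by
      simp only [LinearMap.sub_apply, LinearMap.smul_apply, map_sub, map_smul, smul_eq_mul]
      field_simp
      ring)
    exact sub_eq_zero.mp this

/-- The diagonal part of an operator. -/
noncomputable def diagPart (ω : LinearMap.BilinForm K V) (p1 p2 : V) (z : Module.End K V) :
    Module.End K V :=
  pr1 ω p1 p2 * z * pr1 ω p1 p2 + pr2 ω p1 p2 * z * pr2 ω p1 p2
    + pr0 ω p1 p2 * z * pr0 ω p1 p2

lemma diag_comm1 (halt : ω.IsAlt) (h12 : ω p1 p2 = 1) (z : Module.End K V) :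
    pr1 ω p1 p2 * diagPart ω p1 p2 z = diagPart ω p1 p2 z * pr1 ω p1 p2 := by
  unfold diagPart
  have e11 := m11 (ω := ω) h12
  have e12 := m12 (ω := ω) (p1 := p1) (p2 := p2) halt
  have e21 := m21 (ω := ω) (p1 := p1) (p2 := p2) halt
  have e10 := m10 halt h12
  have e01 := m01 halt h12
  generalize pr1 ω p1 p2 = A at *
  generalize pr2 ω p1 p2 = B at *
  generalize pr0 ω p1 p2 = C at *
  have h1 : A * (A * z * A + B * z * B + C * z * C) = (A * A) * z * A + (A * B) * z * B
    + (A * C) * z * C := by noncomm_ring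
  have h2 : (A * z * A + B * z * B + C * z * C) * A = A * z * (A * A) + B * z * (B * A)
    + C * z * (C * A) := by noncomm_ring
  rw [h1, h2, e11, e12, e21, e10, e01]
  simp

lemma diag_comm2 (halt : ω.IsAlt) (h12 : ω p1 p2 = 1) (z : Module.End K V) :
    pr2 ω p1 p2 * diagPart ω p1 p2 z = diagPart ω p1 p2 z * pr2 ω p1 p2 := by
  unfold diagPart
  have e22 := m22 (ω := ω) h12
  have e12 := m12 (ω := ω) (p1 := p1) (p2 := p2) halt
  have e21 := m21 (ω := ω) (p1 := p1) (p2 := p2) halt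
  have e20 := m20 halt h12
  have e02 := m02 halt h12
  generalize pr1 ω p1 p2 = A at *
  generalize pr2 ω p1 p2 = B at *
  generalize pr0 ω p1 p2 = C at *
  have h1 : B * (A * z * A + B * z * B + C * z * C) = (B * A) * z * A + (B * B) * z * B
    + (B * C) * z * C := by noncomm_ring
  have h2 : (A * z * A + B * z * B + C * z * C) * B = A * z * (A * B) + B * z * (B * B)
    + C * z * (C * B) := by noncomm_ring
  rw [h1, h2, e22, e12, e21, e20, e02]
  simp

lemma diag_comm0 (halt : ω.IsAlt) (h12 : ω p1 p2 = 1) (z : Module.End K V) :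
    pr0 ω p1 p2 * diagPart ω p1 p2 z = diagPart ω p1 p2 z * pr0 ω p1 p2 := by
  have h1 := diag_comm1 halt h12 z
  have h2 := diag_comm2 halt h12 z
  unfold pr0 pr
  rw [sub_mul, mul_sub, add_mul, mul_add, h1, h2, one_mul, mul_one]

lemma diag_br (halt : ω.IsAlt) (h12 : ω p1 p2 = 1) (hC : Ctx ω L S) {l z : Module.End K V}
    (hl : diagPart ω p1 p2 l ∈ L) (hz : IsCube ω p1 p2 L z) :
    IsCube ω p1 p2 L (diagPart ω p1 p2 l * z - z * diagPart ω p1 p2 l) := by
  refine ⟨hC.irr.br _ hl _ hz.mem, ?_⟩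
  have h1 := diag_comm1 halt h12 l
  have h2 := diag_comm2 halt h12 l
  have h0 := diag_comm0 halt h12 l
  have hz' := hz.eq
  set D := diagPart ω p1 p2 l
  unfold cubeRow at *
  generalize pr1 ω p1 p2 = A at *
  generalize pr2 ω p1 p2 = B at *
  generalize pr0 ω p1 p2 = C at *
  have e1 : A * (D * z - z * D) * C = (A * D) * z * C - A * z * (D * C) := by noncomm_ring
  have e2 : C * (D * z - z * D) * B = (C * D) * z * B - C * z * (D * B) := by noncomm_ring
  have e3 : B * (D * z - z * D) * A = (B * D) * z * A - B * z * (D * A) := by noncomm_ring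
  rw [e1, e2, e3, h1, h2, h0, ← h1, ← h2, ← h0]
  have e4 : A * D * z * C - A * z * (C * D) + (C * D * z * B - C * z * (B * D)) +
      (B * D * z * A - B * z * (A * D)) = D * (A * z * C + C * z * B + B * z * A)
      - (A * z * C + C * z * B + B * z * A) * D + ((A * D - D * A) * z * C
      + (C * D - D * C) * z * B + (B * D - D * B) * z * A) := by noncomm_ring
  rw [e4, hz', h1, h2, h0, sub_self, sub_self, sub_self]
  simp

/-- The case of a cube root of unity. -/
theorem false_cube (hC : Ctx ω L S) (halt : ω.IsAlt) (hN : NoSmall L) (h12 : ω p1 p2 = 1)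
    (hdim : 4 < finrank K V) {b : K} (hb1 : b ≠ 1) (hb3 : b * b * b = 1)
    (hT : ∀ z ∈ L, TT2 ω p1 p2 b z ∈ L) : False := by
  classical
  have hb : b ≠ 0 := by rintro rfl; simp at hb3
  have h12' := swap_one halt h12
  have hbi1 : b⁻¹ ≠ 1 := by
    intro h; exact hb1 (inv_eq_one.mp h)
  have hbi3 : b⁻¹ * b⁻¹ * b⁻¹ = 1 := by
    rw [← mul_inv, ← mul_inv, hb3, inv_one]
  have hT' : ∀ z ∈ L, TT2 ω p2 (-p1) b⁻¹ z ∈ L := by
    rw [TT2_swap p1 p2 halt]; exact hT
  obtain ⟨z1, hz1, hg1⟩ := exists_gen hC halt hN h12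
  obtain ⟨z2, hz2, hg2⟩ := exists_gen hC halt hN h12'
  have hp1 : p1 ≠ 0 := by rintro rfl; simp at h12
  set w1 := z1 p2 with hw1
  set w2 := z2 p1 with hw2
  have hq1 : pr ω p1 p2 w1 = 0 := by
    rw [hw1, ← hz1.eq, cubeRow_apply_p2 halt h12, ← Module.End.mul_apply]
    have : pr ω p1 p2 * pr0 ω p1 p2 = 0 := by
      unfold pr; rw [add_mul, m10 halt h12, m20 halt h12, add_zero]
    rw [this]; rfl
  have hq2 : pr ω p1 p2 w2 = 0 := by
    have e : z2 p1 = - z2 (-p1) := by rw [map_neg, neg_neg]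
    rw [hw2, e, ← hz2.eq, cubeRow_apply_p2 halt h12', map_neg, pr0_swap p1 p2 halt,
      ← Module.End.mul_apply]
    have : pr ω p1 p2 * pr0 ω p1 p2 = 0 := by
      unfold pr; rw [add_mul, m10 halt h12, m20 halt h12, add_zero]
    rw [this]; simp
  have hz1q : ∀ v, pr ω p1 p2 v = 0 → z1 v = ω (z1 v) p2 • p1 := by
    intro v hv
    conv_lhs => rw [← hz1.eq, cubeRow_apply_q halt h12 _ hv]
  have hz2q : ∀ v, pr ω p1 p2 v = 0 → z2 v = ω (z2 v) (-p1) • p2 := by
    intro v hv
    have hv' : pr ω p2 (-p1) v = 0 := by rw [pr_swap p1 p2 halt]; exact hv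
    conv_lhs => rw [← hz2.eq, cubeRow_apply_q halt h12' _ hv']
  have hz1p : z1 p1 = ω p1 (z1 p1) • p2 := by
    conv_lhs => rw [← hz1.eq, cubeRow_apply_p1 halt h12]
  have hz2p : z2 p2 = ω p2 (z2 p2) • (-p1) := by
    conv_lhs => rw [← hz2.eq, cubeRow_apply_p1 halt h12']
  set U : Submodule K V := Submodule.span K (({p1, p2, w1, w2} : Finset V) : Set V) with hU
  have u1 : p1 ∈ U := Submodule.subset_span (by simp)
  have u2 : p2 ∈ U := Submodule.subset_span (by simp)
  have u3 : w1 ∈ U := Submodule.subset_span (by simp)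
  have u4 : w2 ∈ U := Submodule.subset_span (by simp)
  have hz1U : ∀ u ∈ U, z1 u ∈ U := by
    intro u hu
    rw [hU] at hu
    induction hu using Submodule.span_induction with
    | zero => rw [map_zero]; exact U.zero_mem
    | add a b _ _ ha hb => rw [map_add]; exact U.add_mem ha hb
    | smul c a _ ha => rw [map_smul]; exact U.smul_mem c ha
    | mem x hx =>
      simp only [Finset.coe_insert, Finset.coe_singleton, Set.mem_insert_iff,
        Set.mem_singleton_iff] at hx
      rcases hx with rfl | rfl | rfl | rfl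
      · rw [hz1p]; exact U.smul_mem _ u2
      · exact u3
      · rw [hz1q _ hq1]; exact U.smul_mem _ u1
      · rw [hz1q _ hq2]; exact U.smul_mem _ u1
  have hz2U : ∀ u ∈ U, z2 u ∈ U := by
    intro u hu
    rw [hU] at hu
    induction hu using Submodule.span_induction with
    | zero => rw [map_zero]; exact U.zero_mem
    | add a b _ _ ha hb => rw [map_add]; exact U.add_mem ha hb
    | smul c a _ ha => rw [map_smul]; exact U.smul_mem c ha
    | mem x hx =>
      simp only [Finset.coe_insert, Finset.coe_singleton, Set.mem_insert_iff,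
        Set.mem_singleton_iff] at hx
      rcases hx with rfl | rfl | rfl | rfl
      · exact u4
      · rw [hz2p]; exact U.smul_mem _ (U.neg_mem u1)
      · rw [hz2q _ hq1]; exact U.smul_mem _ u2
      · rw [hz2q _ hq2]; exact U.smul_mem _ u2
  have hUst : ∀ l ∈ L, ∀ u ∈ U, l u ∈ U := by
    intro l hl
    have c1 : IsCube ω p1 p2 L (cubeRow ω p1 p2 l) :=
      ⟨cubeRow_mem halt h12 hb1 hb3 hT hl, cubeRow_idem halt h12 l⟩
    have c2 : IsCube ω p2 (-p1) L (cubeRow ω p2 (-p1) l) :=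
      ⟨cubeRow_mem halt h12' hbi1 hbi3 hT' hl, cubeRow_idem halt h12' l⟩
    obtain ⟨a1, ha1⟩ := hg1 _ c1
    obtain ⟨a2, ha2⟩ := hg2 _ c2
    have hd : l = diagPart ω p1 p2 l + cubeRow ω p1 p2 l + cubeRow ω p2 (-p1) l := by
      have h := blocks (ω := ω) (p1 := p1) (p2 := p2) l
      unfold diagPart cubeRow
      rw [pr1_swap p1 p2 halt, pr2_swap p1 p2 halt, pr0_swap p1 p2 halt]
      conv_lhs => rw [h]
      abel
    have hdL : diagPart ω p1 p2 l ∈ L := by
      have : diagPart ω p1 p2 l = l - cubeRow ω p1 p2 l - cubeRow ω p2 (-p1) l := by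
        nth_rewrite 2 [hd]; abel
      rw [this]
      exact L.sub_mem (L.sub_mem hl c1.mem) c2.mem
    have hdL' : diagPart ω p2 (-p1) l ∈ L := by
      have : diagPart ω p2 (-p1) l = diagPart ω p1 p2 l := by
        unfold diagPart
        rw [pr1_swap p1 p2 halt, pr2_swap p1 p2 halt, pr0_swap p1 p2 halt]
        abel
      rw [this]; exact hdL
    have hdd : diagPart ω p2 (-p1) l = diagPart ω p1 p2 l := by
      unfold diagPart
      rw [pr1_swap p1 p2 halt, pr2_swap p1 p2 halt, pr0_swap p1 p2 halt]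
      abel
    obtain ⟨a3, ha3⟩ := hg1 _ (diag_br halt h12 hC hdL hz1)
    obtain ⟨a4, ha4⟩ := hg2 _ (diag_br halt h12' hC hdL' hz2)
    rw [hdd] at ha4
    set D := diagPart ω p1 p2 l with hD
    have e1 : pr1 ω p1 p2 p1 = p1 := by rw [pr1_apply, h12, one_smul]
    have e2 : pr2 ω p1 p2 p2 = p2 := by rw [pr2_apply, h12, one_smul]
    have hDp1 : D p1 = ω (D p1) p2 • p1 := by
      have := congrArg (fun f : Module.End K V => f p1) (diag_comm1 halt h12 l)
      simp only [Module.End.mul_apply, e1, pr1_apply] at this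
      exact this.symm
    have hDp2 : D p2 = ω p1 (D p2) • p2 := by
      have := congrArg (fun f : Module.End K V => f p2) (diag_comm2 halt h12 l)
      simp only [Module.End.mul_apply, e2, pr2_apply] at this
      exact this.symm
    have hDw1 : D w1 ∈ U := by
      have : D w1 = (D * z1 - z1 * D) p2 + z1 (D p2) := by
        rw [LinearMap.sub_apply, Module.End.mul_apply, Module.End.mul_apply, ← hw1]; abel
      rw [this, ha3, hDp2, map_smul, ← hw1, LinearMap.smul_apply, ← hw1]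
      exact U.add_mem (U.smul_mem _ u3) (U.smul_mem _ u3)
    have hDw2 : D w2 ∈ U := by
      have : D w2 = (D * z2 - z2 * D) p1 + z2 (D p1) := by
        rw [LinearMap.sub_apply, Module.End.mul_apply, Module.End.mul_apply, ← hw2]; abel
      rw [this, ha4, hDp1, map_smul, ← hw2, LinearMap.smul_apply, ← hw2]
      exact U.add_mem (U.smul_mem _ u4) (U.smul_mem _ u4)
    have hDU : ∀ u ∈ U, D u ∈ U := by
      intro u hu
      rw [hU] at hu
      induction hu using Submodule.span_induction with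
      | zero => rw [map_zero]; exact U.zero_mem
      | add a b _ _ ha hb => rw [map_add]; exact U.add_mem ha hb
      | smul c a _ ha => rw [map_smul]; exact U.smul_mem c ha
      | mem x hx =>
        simp only [Finset.coe_insert, Finset.coe_singleton, Set.mem_insert_iff,
          Set.mem_singleton_iff] at hx
        rcases hx with rfl | rfl | rfl | rfl
        · rw [hDp1]; exact U.smul_mem _ u1
        · rw [hDp2]; exact U.smul_mem _ u2
        · exact hDw1
        · exact hDw2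
    intro u hu
    rw [hd, LinearMap.add_apply, LinearMap.add_apply, ha1, ha2, LinearMap.smul_apply,
      LinearMap.smul_apply]
    exact U.add_mem (U.add_mem (hDU u hu) (U.smul_mem _ (hz1U u hu))) (U.smul_mem _ (hz2U u hu))
  rcases hC.irr.irr U hUst with h | h
  · rw [h] at u1
    exact hp1 ((Submodule.mem_bot K).mp u1)
  · have h1 : finrank K U ≤ ({p1, p2, w1, w2} : Finset V).card := finrank_span_finset_le_card _
    have h2 : ({p1, p2, w1, w2} : Finset V).card ≤ 4 := Finset.card_le_four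
    rw [h, finrank_top] at h1
    omega

end MTP
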